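import Pool.Agent.Run7.h521.PM.GoodSets

/-!
Order automorphisms of the real line: gluing, squeezing into `(-1,1)`, and the group `Gam` of
automorphisms that permute the blocks `[k, k+1]` by translations and preserve a periodic set.
-/

set_option autoImplicit false

open Set Filter Topology

namespace Run7.h521.PM

theorem inv_apply_self' (g : ℝ ≃o ℝ) (x : ℝ) : g⁻¹ (g x) = x := g.symm_apply_apply x
theorem apply_inv_self' (g : ℝ ≃o ℝ) (x : ℝ) : g (g⁻¹ x) = x := g.apply_symm_apply x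

theorem ext' {f g : ℝ ≃o ℝ} (h : ∀ x, f x = g x) : f = g := RelIso.ext h

/-! ### gluing -/

theorem glue_floor {a : ℝ ≃o ℝ} {x : ℝ} (h0 : a ⌊x⌋ = ⌊x⌋) (h1 : a (⌊x⌋ + 1) = ⌊x⌋ + 1) :
    ⌊a x⌋ = ⌊x⌋ := by
  rw [Int.floor_eq_iff]
  constructor
  · rw [← h0]
    exact a.monotone (Int.floor_le x)
  · rw [← h1]
    exact a.strictMono (Int.lt_floor_add_one x)

/-- The order automorphism that agrees with `a k` on the block `[k, k+1)`. -/
noncomputable def glue (a : ℤ → (ℝ ≃o ℝ)) (h : ∀ k : ℤ, a k k = k ∧ a k (k + 1) = k + 1) :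
    ℝ ≃o ℝ :=
  StrictMono.orderIsoOfRightInverse (fun x => a ⌊x⌋ x)
    (by
      intro x y hxy
      have hfx := glue_floor (h ⌊x⌋).1 (h ⌊x⌋).2
      have hfy := glue_floor (h ⌊y⌋).1 (h ⌊y⌋).2
      rcases (Int.floor_le_floor hxy.le).eq_or_lt with he | hlt
      · simp only
        rw [he]
        exact (a ⌊y⌋).strictMono hxy
      · have h1 : a ⌊x⌋ x < ⌊x⌋ + 1 := by
          conv_rhs => rw [← hfx]
          exact Int.lt_floor_add_one _
        have h2 : (⌊y⌋ : ℝ) ≤ a ⌊y⌋ y := by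
          conv_lhs => rw [← hfy]
          exact Int.floor_le _
        have h3 : ((⌊x⌋ : ℝ) + 1) ≤ ⌊y⌋ := by exact_mod_cast hlt
        simp only
        linarith)
    (fun x => (a ⌊x⌋)⁻¹ x)
    (by
      intro x
      have h0 : (a ⌊x⌋)⁻¹ ⌊x⌋ = ⌊x⌋ := by
        conv_lhs => rw [← (h ⌊x⌋).1]
        exact inv_apply_self' _ _
      have h1 : (a ⌊x⌋)⁻¹ (⌊x⌋ + 1) = ⌊x⌋ + 1 := by
        conv_lhs => rw [← (h ⌊x⌋).2]
        exact inv_apply_self' _ _
      have := glue_floor h0 h1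
      simp only
      rw [this]
      exact apply_inv_self' _ _)

theorem glue_apply (a : ℤ → (ℝ ≃o ℝ)) (h : ∀ k : ℤ, a k k = k ∧ a k (k + 1) = k + 1) (x : ℝ) :
    glue a h x = a ⌊x⌋ x := rfl

/-! ### translation -/

/-- `x ↦ x + 1` -/
noncomputable def tr : ℝ ≃o ℝ := OrderIso.addRight 1

theorem tr_apply (x : ℝ) : tr x = x + 1 := rfl

theorem tr_inv_apply (x : ℝ) : tr⁻¹ x = x - 1 := by
  have : tr (x - 1) = x := by rw [tr_apply]; ring
  conv_lhs => rw [← this]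
  exact inv_apply_self' _ _

theorem tr_zpow (k : ℤ) : ∀ x : ℝ, (tr ^ k) x = x + k := by
  induction k using Int.induction_on with
  | zero => intro x; simp
  | succ k ih =>
    intro x
    rw [zpow_add_one, RelIso.mul_apply, ih, tr_apply]
    push_cast; ring
  | pred k ih =>
    intro x
    rw [zpow_sub_one, RelIso.mul_apply, ih, tr_inv_apply]
    push_cast; ring

/-! ### squeezing into `(-1,1)` -/

/-- the map underlying `squeeze` -/
noncomputable def sqFun (g : ℝ ≃o ℝ) (x : ℝ) : ℝ :=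
  if h : x ∈ Ioo (-1 : ℝ) 1 then (psi (g (psi.symm ⟨x, h⟩)) : ℝ) else x

theorem sqFun_psi (g : ℝ ≃o ℝ) (x : ℝ) : sqFun g (psi x) = psi (g x) := by
  have h : (psi x : ℝ) ∈ Ioo (-1 : ℝ) 1 := (psi x).2
  rw [sqFun, dif_pos h]
  have : (⟨(psi x : ℝ), h⟩ : Ioo (-1 : ℝ) 1) = psi x := rfl
  rw [this, psi.symm_apply_apply]

theorem sqFun_out (g : ℝ ≃o ℝ) {x : ℝ} (h : x ∉ Ioo (-1 : ℝ) 1) : sqFun g x = x := dif_neg h

theorem sqFun_in (x : ℝ) : x ∈ Ioo (-1 : ℝ) 1 ↔ ∃ y, x = (psi y : ℝ) := by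
  constructor
  · intro h
    exact ⟨psi.symm ⟨x, h⟩, by rw [psi.apply_symm_apply]⟩
  · rintro ⟨y, rfl⟩
    exact (psi y).2

theorem sqFun_comp (f g : ℝ ≃o ℝ) (x : ℝ) : sqFun f (sqFun g x) = sqFun (f * g) x := by
  by_cases h : x ∈ Ioo (-1 : ℝ) 1
  · obtain ⟨y, rfl⟩ := (sqFun_in x).1 h
    rw [sqFun_psi, sqFun_psi, sqFun_psi, RelIso.mul_apply]
  · rw [sqFun_out g h, sqFun_out f h, sqFun_out _ h]

theorem sqFun_one (x : ℝ) : sqFun 1 x = x := by
  by_cases h : x ∈ Ioo (-1 : ℝ) 1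
  · obtain ⟨y, rfl⟩ := (sqFun_in x).1 h
    rw [sqFun_psi]; rfl
  · exact sqFun_out _ h

theorem sqFun_strictMono (g : ℝ ≃o ℝ) : StrictMono (sqFun g) := by
  intro x y hxy
  by_cases hx : x ∈ Ioo (-1 : ℝ) 1 <;> by_cases hy : y ∈ Ioo (-1 : ℝ) 1
  · obtain ⟨x', rfl⟩ := (sqFun_in x).1 hx
    obtain ⟨y', rfl⟩ := (sqFun_in y).1 hy
    rw [sqFun_psi, sqFun_psi]
    have h1 : psi x' < psi y' := hxy
    have h2 : psi (g x') < psi (g y') :=
      psi.strictMono (g.strictMono (psi.lt_iff_lt.1 h1))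
    exact h2
  · obtain ⟨x', rfl⟩ := (sqFun_in x).1 hx
    rw [sqFun_psi, sqFun_out g hy]
    have h1 := (psi (g x')).2.2
    have h3 : (1 : ℝ) ≤ y := by
      by_contra hcon
      exact hy ⟨by linarith [hx.1], by linarith⟩
    linarith
  · obtain ⟨y', rfl⟩ := (sqFun_in y).1 hy
    rw [sqFun_psi, sqFun_out g hx]
    have h1 := (psi (g y')).2.1
    have h3 : x ≤ (-1 : ℝ) := by
      by_contra hcon
      exact hx ⟨by linarith, by linarith [hy.2]⟩
    linarith
  · rw [sqFun_out g hx, sqFun_out g hy]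
    exact hxy

/-- an order automorphism of the line, transported to `(-1,1)` and extended by the identity -/
noncomputable def sq : (ℝ ≃o ℝ) →* (ℝ ≃o ℝ) where
  toFun g := StrictMono.orderIsoOfRightInverse (sqFun g) (sqFun_strictMono g) (sqFun g⁻¹)
    (fun x => by rw [sqFun_comp, mul_inv_cancel, sqFun_one])
  map_one' := ext' fun x => sqFun_one x
  map_mul' := fun f g => ext' fun x => (sqFun_comp f g x).symm

theorem sq_apply (g : ℝ ≃o ℝ) (x : ℝ) : sq g x = sqFun g x := rfl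

theorem sq_mem_Bd {Y : Set ℝ} {g : ℝ ≃o ℝ} (hg : ∀ x, g x ∈ per Y ↔ x ∈ per Y) (x : ℝ) :
    sq g x ∈ Bd Y ↔ x ∈ Bd Y := by
  rw [sq_apply]
  by_cases h : x ∈ Ioo (-1 : ℝ) 1
  · obtain ⟨y, rfl⟩ := (sqFun_in x).1 h
    rw [sqFun_psi, psi_mem_Bd, psi_mem_Bd, hg]
  · rw [sqFun_out g h]

/-- the affine map `x ↦ x/4 + 1/2` -/
noncomputable def aff : ℝ ≃o ℝ :=
  StrictMono.orderIsoOfRightInverse (fun x => x / 4 + 1 / 2)
    (fun x y h => by simp only; linarith) (fun x => 4 * x - 2) (fun x => by ring)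

theorem aff_apply (x : ℝ) : aff x = x / 4 + 1 / 2 := rfl

theorem aff_inv_apply (x : ℝ) : aff⁻¹ x = 4 * x - 2 := by
  have : aff (4 * x - 2) = x := by rw [aff_apply]; ring
  conv_lhs => rw [← this]
  exact inv_apply_self' _ _

/-- squeezed into `(1/4, 3/4)` -/
noncomputable def sm (g : ℝ ≃o ℝ) : ℝ ≃o ℝ := aff * sq g * aff⁻¹

theorem sm_apply (g : ℝ ≃o ℝ) (x : ℝ) : sm g x = sqFun g (4 * x - 2) / 4 + 1 / 2 := by
  rw [sm, RelIso.mul_apply, RelIso.mul_apply, aff_inv_apply, aff_apply, sq_apply]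

theorem sm_out (g : ℝ ≃o ℝ) {x : ℝ} (h : x ≤ 1 / 4 ∨ 3 / 4 ≤ x) : sm g x = x := by
  rw [sm_apply, sqFun_out]
  · ring
  · rintro ⟨h1, h2⟩
    rcases h with h | h <;> linarith

/-- The fundamental piece `P ⊆ [1/4, 3/4]` built from `Y`. -/
def piece (Y : Set ℝ) : Set ℝ := {x | 4 * x + (-2) ∈ Bd Y}

theorem piece_subset {Y : Set ℝ} {x : ℝ} (h : x ∈ piece Y) : 1 / 4 ≤ x ∧ x ≤ 3 / 4 := by
  have := Bd_subset h
  constructor <;> linarith [this.1, this.2]

theorem sm_mem {Y : Set ℝ} {g : ℝ ≃o ℝ} (hg : ∀ x, g x ∈ per Y ↔ x ∈ per Y) (x : ℝ) :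
    sm g x ∈ piece Y ↔ x ∈ piece Y := by
  rw [sm_apply]
  change 4 * (sqFun g (4 * x - 2) / 4 + 1 / 2) + (-2) ∈ Bd Y ↔ 4 * x + (-2) ∈ Bd Y
  have e1 : 4 * (sqFun g (4 * x - 2) / 4 + 1 / 2) + (-2) = sq g (4 * x + (-2)) := by
    rw [sq_apply, ← sub_eq_add_neg]; ring_nf
  rw [e1, sq_mem_Bd hg]

/-! ### the group -/

/-- Order automorphisms preserving the periodic set `per P` and acting on the points `k`,
`k + 1/4`, `k + 3/4` by a common integer translation. -/
def Gam (P : Set ℝ) : Subgroup (ℝ ≃o ℝ) where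
  carrier := {g | (∀ x, g x ∈ per P ↔ x ∈ per P) ∧
    ∃ m : ℤ, ∀ k : ℤ, g k = k + m ∧ g (k + 1 / 4) = k + m + 1 / 4 ∧
      g (k + 3 / 4) = k + m + 3 / 4}
  mul_mem' := by
    rintro f g ⟨hf, m, hm⟩ ⟨hg, n, hn⟩
    refine ⟨fun x => by rw [RelIso.mul_apply, hf, hg], m + n, fun k => ?_⟩
    have h1 := hm (k + n)
    have h2 := hn k
    push_cast at h1 ⊢
    refine ⟨?_, ?_, ?_⟩
    · rw [RelIso.mul_apply, h2.1, h1.1]; ring
    · rw [RelIso.mul_apply, h2.2.1, h1.2.1]; ring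
    · rw [RelIso.mul_apply, h2.2.2, h1.2.2]; ring
  one_mem' := ⟨fun x => Iff.rfl, 0, fun k => by simp⟩
  inv_mem' := by
    rintro g ⟨hg, m, hm⟩
    refine ⟨fun x => ?_, -m, fun k => ?_⟩
    · rw [← hg (g⁻¹ x), apply_inv_self']
    · have h1 := hm (k - m)
      push_cast at h1 ⊢
      refine ⟨?_, ?_, ?_⟩
      · have : (k : ℝ) = g ((k : ℝ) - m) := by rw [h1.1]; ring
        conv_lhs => rw [this]
        rw [inv_apply_self']; ring
      · have : (k : ℝ) + 1 / 4 = g ((k : ℝ) - m + 1 / 4) := by rw [h1.2.1]; ring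
        conv_lhs => rw [this]
        rw [inv_apply_self']; ring
      · have : (k : ℝ) + 3 / 4 = g ((k : ℝ) - m + 3 / 4) := by rw [h1.2.2]; ring
        conv_lhs => rw [this]
        rw [inv_apply_self']; ring

theorem tr_mem (P : Set ℝ) : tr ∈ Gam P := by
  refine ⟨fun x => ?_, 1, fun k => ?_⟩
  · change Int.fract (x + 1) ∈ P ↔ Int.fract x ∈ P
    rw [Int.fract_add_one]
  · simp only [tr_apply]
    push_cast
    refine ⟨rfl, by ring, by ring⟩

/-- gluing elements of degree zero -/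
theorem glue_mem {P : Set ℝ} (a : ℤ → (ℝ ≃o ℝ)) (h : ∀ k : ℤ, a k k = k ∧ a k (k + 1) = k + 1)
    (h1 : ∀ k x, a k x ∈ per P ↔ x ∈ per P)
    (h2 : ∀ k : ℤ, a k (k + 1 / 4) = k + 1 / 4 ∧ a k (k + 3 / 4) = k + 3 / 4) :
    glue a h ∈ Gam P := by
  refine ⟨fun x => by rw [glue_apply, h1], 0, fun k => ?_⟩
  have f1 : ⌊(k : ℝ) + 1 / 4⌋ = k := by
    rw [Int.floor_eq_iff]; constructor <;> linarith
  have f2 : ⌊(k : ℝ) + 3 / 4⌋ = k := by
    rw [Int.floor_eq_iff]; constructor <;> linarith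
  simp only [glue_apply, Int.floor_intCast, f1, f2, Int.cast_zero, add_zero]
  exact ⟨(h k).1, (h2 k).1, (h2 k).2⟩

/-- every element of degree zero is a commutator with the translation -/
theorem exists_comm {P : Set ℝ} {f : ℝ ≃o ℝ} (hf : f ∈ Gam P) (h0 : f 0 = 0) :
    ∃ h ∈ Gam P, f = h * tr * h⁻¹ * tr⁻¹ := by
  obtain ⟨m, hm⟩ := hf.2
  have hm0 : m = 0 := by
    have := (hm 0).1
    simp only [Int.cast_zero, zero_add, h0] at this
    exact_mod_cast this.symm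
  subst hm0
  simp only [Int.cast_zero, add_zero] at hm
  let a : ℤ → (ℝ ≃o ℝ) := fun k => (f * tr) ^ k * tr ^ (-k)
  have hfix : ∀ (k j : ℤ), ((f * tr) ^ k) j = j + k ∧
      ((f * tr) ^ k) (j + 1 / 4) = j + k + 1 / 4 ∧
      ((f * tr) ^ k) (j + 3 / 4) = j + k + 3 / 4 := by
    intro k
    have step : ∀ j : ℤ, (f * tr) j = j + 1 ∧ (f * tr) (j + 1 / 4) = j + 1 + 1 / 4 ∧
        (f * tr) (j + 3 / 4) = j + 1 + 3 / 4 := by
      intro j
      have := hm (j + 1)
      push_cast at this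
      refine ⟨?_, ?_, ?_⟩
      · rw [RelIso.mul_apply, tr_apply, this.1]
      · rw [RelIso.mul_apply, tr_apply, ← this.2.1]
        congr 1; ring
      · rw [RelIso.mul_apply, tr_apply, ← this.2.2]
        congr 1; ring
    have stepi : ∀ j : ℤ, (f * tr)⁻¹ j = j - 1 ∧ (f * tr)⁻¹ (j + 1 / 4) = j - 1 + 1 / 4 ∧
        (f * tr)⁻¹ (j + 3 / 4) = j - 1 + 3 / 4 := by
      intro j
      have := step (j - 1)
      push_cast at this
      refine ⟨?_, ?_, ?_⟩
      · have e : (j : ℝ) = (f * tr) ((j : ℝ) - 1) := by rw [this.1]; ring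
        conv_lhs => rw [e]
        exact inv_apply_self' _ _
      · have e : (j : ℝ) + 1 / 4 = (f * tr) ((j : ℝ) - 1 + 1 / 4) := by rw [this.2.1]; ring
        conv_lhs => rw [e]
        exact inv_apply_self' _ _
      · have e : (j : ℝ) + 3 / 4 = (f * tr) ((j : ℝ) - 1 + 3 / 4) := by rw [this.2.2]; ring
        conv_lhs => rw [e]
        exact inv_apply_self' _ _
    induction k using Int.induction_on with
    | zero => intro j; simp
    | succ k ih =>
      intro j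
      have s := step j
      have i := ih (j + 1)
      push_cast at i ⊢
      rw [zpow_add_one]
      refine ⟨?_, ?_, ?_⟩
      · rw [RelIso.mul_apply, s.1, i.1]; ring
      · rw [RelIso.mul_apply, s.2.1, i.2.1]; ring
      · rw [RelIso.mul_apply, s.2.2, i.2.2]; ring
    | pred k ih =>
      intro j
      have s := stepi j
      have i := ih (j - 1)
      push_cast at i ⊢
      rw [zpow_sub_one]
      refine ⟨?_, ?_, ?_⟩
      · rw [RelIso.mul_apply, s.1, i.1]; ring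
      · rw [RelIso.mul_apply, s.2.1, i.2.1]; ring
      · rw [RelIso.mul_apply, s.2.2, i.2.2]; ring
  have ha : ∀ (k j : ℤ), a k j = j ∧ a k (j + 1 / 4) = j + 1 / 4 ∧
      a k (j + 3 / 4) = j + 3 / 4 := by
    intro k j
    have i := hfix k (j - k)
    push_cast at i
    simp only [a, RelIso.mul_apply, tr_zpow]
    push_cast
    refine ⟨?_, ?_, ?_⟩
    · have := i.1
      rw [show (j : ℝ) + -k = j - k by ring, this]; ring
    · have := i.2.1
      rw [show (j : ℝ) + 1 / 4 + -k = j - k + 1 / 4 by ring, this]; ring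
    · have := i.2.2
      rw [show (j : ℝ) + 3 / 4 + -k = j - k + 3 / 4 by ring, this]; ring
  have hak : ∀ k : ℤ, a k k = k ∧ a k (k + 1) = k + 1 := by
    intro k
    refine ⟨(ha k k).1, ?_⟩
    have := (ha k (k + 1)).1
    push_cast at this
    exact this
  have hamem : ∀ k, a k ∈ Gam P := fun k =>
    (Gam P).mul_mem ((Gam P).zpow_mem ((Gam P).mul_mem hf (tr_mem P)) _)
      ((Gam P).zpow_mem (tr_mem P) _)
  refine ⟨glue a hak, glue_mem a hak (fun k x => (hamem k).1 x)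
    (fun k => ⟨(ha k k).2.1, (ha k k).2.2⟩), ?_⟩
  have key : f * tr * glue a hak = glue a hak * tr := by
    refine ext' fun x => ?_
    have e1 : (f * tr * glue a hak) x = (f * tr) (a ⌊x⌋ x) := rfl
    have e2 : (glue a hak * tr) x = a (⌊x⌋ + 1) (x + 1) := by
      rw [← Int.floor_add_one]; rfl
    have e3 : (f * tr) * a ⌊x⌋ = (f * tr) ^ (⌊x⌋ + 1) * tr ^ (-⌊x⌋) := by
      simp only [a]
      rw [← mul_assoc, ← zpow_one_add, add_comm]
    rw [e1, e2, ← RelIso.mul_apply, e3]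
    simp only [a]
    rw [RelIso.mul_apply, RelIso.mul_apply, tr_zpow, tr_zpow]
    congr 1
    push_cast
    ring
  have h3 : f * tr = glue a hak * tr * (glue a hak)⁻¹ := by
    rw [← key]
    group
  have h4 : f = (f * tr) * tr⁻¹ := by group
  rw [h4, h3]

/-- the diagonal element given by an order automorphism supported in `[1/4, 3/4]` -/
noncomputable def diag (g : ℝ ≃o ℝ) : ℝ ≃o ℝ :=
  glue (fun k => tr ^ k * sm g * tr ^ (-k)) (by
    intro k
    constructor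
    · rw [RelIso.mul_apply, RelIso.mul_apply, tr_zpow, tr_zpow]
      push_cast
      rw [sm_out g (by left; linarith)]
      ring
    · rw [RelIso.mul_apply, RelIso.mul_apply, tr_zpow, tr_zpow]
      push_cast
      rw [sm_out g (by right; linarith)]
      ring)

theorem diag_apply (g : ℝ ≃o ℝ) (x : ℝ) : diag g x = sm g (Int.fract x) + ⌊x⌋ := by
  rw [diag, glue_apply, RelIso.mul_apply, RelIso.mul_apply, tr_zpow, tr_zpow]
  push_cast
  congr 2

theorem sm_Ico (g : ℝ ≃o ℝ) {x : ℝ} (h0 : 0 ≤ x) (h1 : x < 1) : 0 ≤ sm g x ∧ sm g x < 1 := by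
  have e0 : sm g 0 = 0 := sm_out g (by left; norm_num)
  have e1 : sm g 1 = 1 := sm_out g (by right; norm_num)
  constructor
  · rw [← e0]; exact (sm g).monotone h0
  · conv_rhs => rw [← e1]
    exact (sm g).strictMono h1

theorem diag_floor_fract (g : ℝ ≃o ℝ) (x : ℝ) :
    ⌊diag g x⌋ = ⌊x⌋ ∧ Int.fract (diag g x) = sm g (Int.fract x) := by
  have h := sm_Ico g (Int.fract_nonneg x) (Int.fract_lt_one x)
  have h1 : ⌊diag g x⌋ = ⌊x⌋ := by
    rw [diag_apply, Int.floor_eq_iff]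
    constructor <;> linarith [h.1, h.2]
  refine ⟨h1, ?_⟩
  rw [Int.fract, h1, diag_apply]
  ring

theorem diag_mem {Y : Set ℝ} {g : ℝ ≃o ℝ} (hg : ∀ x, g x ∈ per Y ↔ x ∈ per Y) :
    diag g ∈ Gam (piece Y) := by
  refine ⟨fun x => ?_, 0, fun k => ?_⟩
  · change Int.fract (diag g x) ∈ piece Y ↔ Int.fract x ∈ piece Y
    rw [(diag_floor_fract g x).2, sm_mem hg]
  · have f1 : ⌊(k : ℝ) + 1 / 4⌋ = k := by
      rw [Int.floor_eq_iff]; constructor <;> linarith
    have f2 : ⌊(k : ℝ) + 3 / 4⌋ = k := by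
      rw [Int.floor_eq_iff]; constructor <;> linarith
    have g1 : Int.fract ((k : ℝ) + 1 / 4) = 1 / 4 := by rw [Int.fract, f1]; ring
    have g2 : Int.fract ((k : ℝ) + 3 / 4) = 3 / 4 := by rw [Int.fract, f2]; ring
    refine ⟨?_, ?_, ?_⟩
    · rw [diag_apply, Int.fract_intCast, sm_out g (by left; norm_num), Int.floor_intCast]
      push_cast; ring
    · rw [diag_apply, g1, f1, sm_out g (by left; norm_num)]
      push_cast; ring
    · rw [diag_apply, g2, f2, sm_out g (by right; norm_num)]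
      push_cast; ring

end Run7.h521.PM
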