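import Pool.Agent.Run7.h521.PM.GroupPart
import Pool.Agent.Run7.h521.PM.OrdAut

/-!
The Cantor set, the subgroup, and the verification of the two properties.
-/

set_option autoImplicit false

open Set

namespace Run7.h521.PM

open Pool.Agent.H812R3.CantorChar

/-- half of the ternary Cantor set -/
def Y1 : Set ℝ := {x | 2 * x + 0 ∈ cantorSet}

theorem mem_Y1 {x : ℝ} : x ∈ Y1 ↔ 2 * x ∈ cantorSet := by
  change 2 * x + 0 ∈ cantorSet ↔ _
  rw [add_zero]

theorem Y1_good : Good Y1 := Good.affine good_cantor (by norm_num) 0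

theorem Y1_bd {x : ℝ} (h : x ∈ Y1) : 0 ≤ x ∧ x ≤ 1 / 2 := by
  have := cantor_mem01 (mem_Y1.1 h)
  constructor <;> linarith [this.1, this.2]

theorem Y1_sub : Y1 ⊆ Ico 0 1 := fun x h => ⟨(Y1_bd h).1, by linarith [(Y1_bd h).2]⟩

theorem Y1_gap {x : ℝ} (h : x ∈ Y1) : x ≤ 1 / 6 ∨ 1 / 3 ≤ x := by
  by_contra hcon
  push Not at hcon
  exact cantor_gap (by linarith) (by linarith) (mem_Y1.1 h)

theorem piece_good {Y : Set ℝ} (hY : Good Y) (hs : Y ⊆ Ico 0 1) : Good (piece Y) :=
  Good.affine (Good.bd hY hs) (by norm_num) (-2)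

theorem piece_sub {Y : Set ℝ} : piece Y ⊆ Ico 0 1 := fun x h =>
  ⟨by linarith [(piece_subset h).1], by linarith [(piece_subset h).2]⟩

/-- the linear Cantor set used below -/
def CC : Set ℝ := Bd (piece Y1)

theorem CC_good : Good CC := Good.bd (piece_good Y1_good Y1_sub) piece_sub

/-! ### the second generator -/

/-- the piecewise linear map -/
noncomputable def pl (x : ℝ) : ℝ := min x (max (x / 3) (max (x - 1 / 3) (3 * x - 3 / 2)))

/-- its inverse -/
noncomputable def plInv (y : ℝ) : ℝ := max y (min (3 * y) (min (y + 1 / 3) ((y + 3 / 2) / 3)))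

theorem pl_mono : StrictMono pl := by
  intro x y h
  unfold pl
  apply min_lt_min h
  apply max_lt_max (by linarith)
  exact max_lt_max (by linarith) (by linarith)

theorem pl_inv (y : ℝ) : pl (plInv y) = y := by
  unfold pl plInv
  rcases le_total y (min (3 * y) (min (y + 1 / 3) ((y + 3 / 2) / 3))) with h | h
  · rw [max_eq_right h]
    simp only [le_min_iff] at h
    rcases le_total (3 * y) (min (y + 1 / 3) ((y + 3 / 2) / 3)) with h1 | h1
    · rw [min_eq_left h1]
      simp only [le_min_iff] at h1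
      rw [max_eq_left (max_le (by linarith) (by linarith)), min_eq_right (by linarith)]
      ring
    · rw [min_eq_right h1]
      rcases le_total (y + 1 / 3) ((y + 3 / 2) / 3) with h2 | h2
      · rw [min_eq_left h2] at h1 ⊢
        rw [max_eq_right (a := (y + 1 / 3) / 3)
          ((by linarith : (y + 1 / 3) / 3 ≤ y + 1 / 3 - 1 / 3).trans (le_max_left _ _)),
          max_eq_left (by linarith), min_eq_right (by linarith)]
        ring
      · rw [min_eq_right h2] at h1 ⊢
        rw [max_eq_right (a := ((y + 3 / 2) / 3) / 3)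
          ((by linarith : (y + 3 / 2) / 3 / 3 ≤ 3 * ((y + 3 / 2) / 3) - 3 / 2).trans
            (le_max_right _ _)),
          max_eq_right (by linarith), min_eq_right (by linarith)]
        ring
  · rw [max_eq_left h]
    have h3 : y ≤ max (y / 3) (max (y - 1 / 3) (3 * y - 3 / 2)) := by
      rw [min_le_iff, min_le_iff] at h
      rw [le_max_iff, le_max_iff]
      rcases h with h | h | h
      · left; linarith
      · linarith
      · right; right; linarith
    rw [min_eq_left h3]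

/-- the piecewise linear map as an order automorphism -/
noncomputable def plIso : ℝ ≃o ℝ :=
  StrictMono.orderIsoOfRightInverse pl pl_mono plInv pl_inv

theorem plIso_apply (x : ℝ) : plIso x = pl x := rfl

theorem pl_out {x : ℝ} (h : x ≤ 0 ∨ 3 / 4 ≤ x) : pl x = x := by
  unfold pl
  rw [min_eq_left]
  rcases h with h | h
  · exact le_max_of_le_left (by linarith)
  · exact le_max_of_le_right (le_max_of_le_right (by linarith))

/-- period one version -/
noncomputable def plP : ℝ ≃o ℝ :=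
  glue (fun k => tr ^ k * plIso * tr ^ (-k)) (by
    intro k
    constructor
    · rw [RelIso.mul_apply, RelIso.mul_apply, tr_zpow, tr_zpow, plIso_apply]
      push_cast
      rw [pl_out (by left; linarith)]
      ring
    · rw [RelIso.mul_apply, RelIso.mul_apply, tr_zpow, tr_zpow, plIso_apply]
      push_cast
      rw [pl_out (by right; linarith)]
      ring)

theorem plP_apply (x : ℝ) : plP x = pl (Int.fract x) + ⌊x⌋ := by
  rw [plP, glue_apply, RelIso.mul_apply, RelIso.mul_apply, tr_zpow, tr_zpow, plIso_apply]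
  push_cast
  congr 2

/-- multiplication by two -/
noncomputable def dbl : ℝ ≃o ℝ :=
  StrictMono.orderIsoOfRightInverse (fun x => 2 * x)
    (fun x y h => by simp only; linarith) (fun x => x / 2) (fun x => by
      change 2 * (x / 2) = x
      ring)

theorem dbl_inv_apply (x : ℝ) : dbl⁻¹ x = x / 2 := by
  have : dbl (x / 2) = x := by change 2 * (x / 2) = x; ring
  conv_lhs => rw [← this]
  exact inv_apply_self' _ _

/-- period two version -/
noncomputable def gg : ℝ ≃o ℝ := dbl * plP * dbl⁻¹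

/-- the coordinate in `[0,2)` -/
noncomputable def yy (x : ℝ) : ℝ := 2 * Int.fract (x / 2)

theorem yy_mem (x : ℝ) : 0 ≤ yy x ∧ yy x < 2 := by
  have h1 := Int.fract_nonneg (x / 2)
  have h2 := Int.fract_lt_one (x / 2)
  unfold yy
  constructor <;> linarith

theorem yy_eq (x : ℝ) : x = yy x + 2 * ⌊x / 2⌋ := by
  have := Int.fract_add_floor (x / 2)
  unfold yy
  linarith

theorem yy_unique {x y : ℝ} {n : ℤ} (h0 : 0 ≤ y) (h1 : y < 2) (h : x = y + 2 * n) : yy x = y := by
  have : x / 2 = y / 2 + n := by rw [h]; ring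
  unfold yy
  rw [this, Int.fract_add_intCast, Int.fract_eq_self.2 ⟨by linarith, by linarith⟩]
  ring

/-- the piecewise linear map in the coordinate `[0,2)` -/
noncomputable def ff (y : ℝ) : ℝ := 2 * pl (y / 2)

theorem ff_mem {y : ℝ} (h0 : 0 ≤ y) (h1 : y < 2) : 0 ≤ ff y ∧ ff y < 2 := by
  have e0 : pl 0 = 0 := pl_out (by left; norm_num)
  have e1 : pl 1 = 1 := pl_out (by right; norm_num)
  have h2 : pl 0 ≤ pl (y / 2) := pl_mono.monotone (by linarith)
  have h3 : pl (y / 2) < pl 1 := pl_mono (by linarith)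
  unfold ff
  constructor <;> linarith

theorem yy_gg (x : ℝ) : yy (gg x) = ff (yy x) := by
  have h := yy_mem x
  have hf := ff_mem h.1 h.2
  refine yy_unique (n := ⌊x / 2⌋) hf.1 hf.2 ?_
  have : gg x = 2 * plP (x / 2) := by
    rw [gg, RelIso.mul_apply, RelIso.mul_apply, dbl_inv_apply]
    rfl
  rw [this, plP_apply]
  unfold ff yy
  rw [mul_div_cancel_left₀ _ (by norm_num : (2 : ℝ) ≠ 0)]
  ring

theorem ff_1 {y : ℝ} (h1 : 0 ≤ y) (h2 : y ≤ 1) : ff y = y / 3 := by
  unfold ff pl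
  rw [max_eq_left (max_le (by linarith) (by linarith)), min_eq_right (by linarith)]
  ring

theorem ff_2 {y : ℝ} (h1 : 1 ≤ y) (h2 : y ≤ 7 / 6) : ff y = y - 2 / 3 := by
  unfold ff pl
  rw [max_eq_right (a := y / 2 / 3)
    ((by linarith : y / 2 / 3 ≤ y / 2 - 1 / 3).trans (le_max_left _ _)),
    max_eq_left (by linarith), min_eq_right (by linarith)]
  ring

theorem ff_3 {y : ℝ} (h1 : 7 / 6 ≤ y) (h2 : y ≤ 3 / 2) : ff y = 3 * y - 3 := by
  unfold ff pl
  rw [max_eq_right (a := y / 2 / 3)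
    ((by linarith : y / 2 / 3 ≤ 3 * (y / 2) - 3 / 2).trans (le_max_right _ _)),
    max_eq_right (by linarith), min_eq_right (by linarith)]
  ring

theorem ff_4 {y : ℝ} (h1 : 3 / 2 ≤ y) : ff y = y := by
  unfold ff
  rw [pl_out (by right; linarith)]
  ring

/-- membership in the periodic set in terms of the coordinate -/
theorem per_yy (x : ℝ) : x ∈ per Y1 ↔ (yy x ∈ Y1 ∨ yy x - 1 ∈ Y1) := by
  have h := yy_mem x
  have hx := yy_eq x
  change Int.fract x ∈ Y1 ↔ _
  have e : Int.fract x = Int.fract (yy x) := by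
    conv_lhs => rw [hx]
    have : (2 : ℝ) * ⌊x / 2⌋ = ((2 * ⌊x / 2⌋ : ℤ) : ℝ) := by push_cast; ring
    rw [this, Int.fract_add_intCast]
  rw [e]
  rcases lt_or_ge (yy x) 1 with h1 | h1
  · rw [Int.fract_eq_self.2 ⟨h.1, h1⟩]
    constructor
    · exact Or.inl
    · rintro (h2 | h2)
      · exact h2
      · have := (Y1_bd h2).1
        linarith
  · have e2 : Int.fract (yy x) = yy x - 1 := by
      have : yy x = (yy x - 1) + 1 := by ring
      conv_lhs => rw [this]
      rw [Int.fract_add_one, Int.fract_eq_self.2 ⟨by linarith, by linarith⟩]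
    rw [e2]
    constructor
    · exact Or.inr
    · rintro (h2 | h2)
      · have := (Y1_bd h2).2
        linarith
      · exact h2

theorem ff_per {y : ℝ} (h0 : 0 ≤ y) (h1 : y < 2) :
    (ff y ∈ Y1 ∨ ff y - 1 ∈ Y1) ↔ (y ∈ Y1 ∨ y - 1 ∈ Y1) := by
  rcases lt_or_ge y 1 with a1 | a1
  · rw [ff_1 h0 a1.le]
    have n1 : y / 3 - 1 ∉ Y1 := fun h => by linarith [(Y1_bd h).1]
    have n2 : y - 1 ∉ Y1 := fun h => by linarith [(Y1_bd h).1]
    simp only [n1, n2, or_false]
    rw [mem_Y1, mem_Y1, cantor_left (by linarith)]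
    have : 3 * (2 * (y / 3)) = 2 * y := by ring
    rw [this]
  rcases le_or_gt y (7 / 6) with a2 | a2
  · rw [ff_2 a1 a2]
    have n1 : y - 2 / 3 - 1 ∉ Y1 := fun h => by linarith [(Y1_bd h).1]
    have n2 : y ∉ Y1 := fun h => by linarith [(Y1_bd h).2]
    simp only [n1, n2, or_false, false_or]
    rw [mem_Y1, mem_Y1, cantor_left (z := 2 * (y - 1)) (by linarith),
      cantor_right (by linarith)]
    have : 3 * (2 * (y - 2 / 3)) - 2 = 3 * (2 * (y - 1)) := by ring
    rw [this]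
  rcases le_or_gt y (3 / 2) with a3 | a3
  · rw [ff_3 a2.le a3]
    rcases lt_or_ge y (4 / 3) with a4 | a4
    · have n1 : 3 * y - 3 ∉ Y1 := fun h => by linarith [(Y1_bd h).2]
      have n2 : y ∉ Y1 := fun h => by linarith [(Y1_bd h).2]
      have n3 : 3 * y - 3 - 1 ∉ Y1 := fun h => by linarith [(Y1_bd h).1]
      have n4 : y - 1 ∉ Y1 := fun h => by rcases Y1_gap h with h | h <;> linarith
      simp only [n1, n2, n3, n4]
    · have n1 : 3 * y - 3 ∉ Y1 := fun h => by linarith [(Y1_bd h).2]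
      have n2 : y ∉ Y1 := fun h => by linarith [(Y1_bd h).2]
      simp only [n1, n2, false_or]
      rw [mem_Y1, mem_Y1, cantor_right (z := 2 * (y - 1)) (by linarith)]
      have : 2 * (3 * y - 3 - 1) = 3 * (2 * (y - 1)) - 2 := by ring
      rw [this]
  · rw [ff_4 a3.le]

theorem gg_per (x : ℝ) : gg x ∈ per Y1 ↔ x ∈ per Y1 := by
  have h := yy_mem x
  rw [per_yy, per_yy, yy_gg, ff_per h.1 h.2]

theorem tr_per (x : ℝ) : tr x ∈ per Y1 ↔ x ∈ per Y1 := by
  change Int.fract (x + 1) ∈ Y1 ↔ Int.fract x ∈ Y1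
  rw [Int.fract_add_one]

theorem yy_tr (x : ℝ) : yy (tr x) = if yy x < 1 then yy x + 1 else yy x - 1 := by
  have h := yy_mem x
  have hx := yy_eq x
  rw [tr_apply]
  split_ifs with h1
  · exact yy_unique (n := ⌊x / 2⌋) (by linarith) (by linarith) (by linarith)
  · exact yy_unique (n := ⌊x / 2⌋ + 1) (by linarith) (by linarith) (by push_cast; linarith)

/-! ### the group -/

/-- the group of order automorphisms -/
abbrev GG : Type := Gam (piece Y1)

/-- the homomorphism to the stabilizer of the Cantor set -/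
noncomputable def toStab : GG →* Stab CC where
  toFun g := ⟨sq g.1, fun x => sq_mem_Bd g.2.1 x⟩
  map_one' := Subtype.ext (map_one sq)
  map_mul' := fun f g => Subtype.ext (map_mul sq f.1 g.1)

/-- the homomorphism to the mapping class group -/
noncomputable def rho : GG →* MapGroup (lineSet CC) := (toMap CC).comp toStab

/-- the group `H` -/
noncomputable def HH : Subgroup (MapGroup (lineSet CC)) := rho.range

theorem rho_ker {f g : GG} (h : rho f = rho g) {x : ℝ} (hx : x ∈ per (piece Y1)) :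
    f.1 x = g.1 x := by
  have h1 : rho (g⁻¹ * f) = 1 := by rw [map_mul, map_inv, h, inv_mul_cancel]
  have h2 := toMap_eq_one CC_good.2.2.2 (g := toStab (g⁻¹ * f)) h1 (psi_mem_Bd.2 hx)
  have h3 : sq (g.1⁻¹ * f.1) (psi x) = psi x := h2
  rw [sq_apply, sqFun_psi] at h3
  have h4 := psi.injective (Subtype.ext h3)
  rw [RelIso.mul_apply] at h4
  have := congrArg g.1 h4
  rwa [apply_inv_self'] at this

/-- degree -/
noncomputable def dg (g : GG) : ℤ := ⌊g.1 0⌋

theorem dg_spec (g : GG) (k : ℤ) : g.1 k = k + dg g ∧ g.1 (k + 1 / 4) = k + dg g + 1 / 4 ∧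
    g.1 (k + 3 / 4) = k + dg g + 3 / 4 := by
  obtain ⟨m, hm⟩ := g.2.2
  have h0 := (hm 0).1
  simp only [Int.cast_zero, zero_add] at h0
  have : dg g = m := by rw [dg, h0, Int.floor_intCast]
  rw [this]
  exact hm k

theorem dg_mul (f g : GG) : dg (f * g) = dg f + dg g := by
  have h1 := (dg_spec g 0).1
  have h2 := (dg_spec f (dg g)).1
  have h3 := (dg_spec (f * g) 0).1
  simp only [Int.cast_zero, zero_add] at h1 h3
  have : (f * g).1 0 = f.1 (g.1 0) := rfl
  rw [h3, h1, h2] at this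
  have h4 : (dg (f * g) : ℝ) = dg f + dg g := by linarith
  exact_mod_cast h4

/-- translation in the group -/
noncomputable def trG : GG := ⟨tr, tr_mem _⟩

theorem dg_tr : dg trG = 1 := by
  have : trG.1 0 = ((1 : ℤ) : ℝ) := by
    change tr 0 = _
    rw [tr_apply]; norm_num
  rw [dg, this, Int.floor_intCast]

theorem comm_GG (f : GG) (hf : dg f = 0) : ∃ h : GG, f = h * trG * h⁻¹ * trG⁻¹ := by
  have h0 : f.1 0 = 0 := by
    have := (dg_spec f 0).1
    rw [hf] at this
    simpa using this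
  obtain ⟨h, hh, he⟩ := exists_comm f.2 h0
  exact ⟨⟨h, hh⟩, Subtype.ext he⟩

theorem qtilde_HH : Subsingleton (QTilde HH) :=
  qtilde_subsingleton rho.rangeRestrict rho.rangeRestrict_surjective dg dg_mul trG dg_tr comm_GG

/-! ### non-amenability -/

/-- the invariant set -/
def Om : Set ℝ := {x | x ∈ per (piece Y1) ∧ 1 / 4 < Int.fract x ∧ Int.fract x < 3 / 4}

/-- the inner coordinate -/
noncomputable def qq (x : ℝ) : ℝ :=
  if h : 4 * Int.fract x - 2 ∈ Ioo (-1 : ℝ) 1 then psi.symm ⟨_, h⟩ else 0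

theorem qq_spec {x : ℝ} (h : x ∈ Om) : (psi (qq x) : ℝ) = 4 * Int.fract x - 2 := by
  have h1 : 4 * Int.fract x - 2 ∈ Ioo (-1 : ℝ) 1 := ⟨by linarith [h.2.1], by linarith [h.2.2]⟩
  rw [qq, dif_pos h1, psi.apply_symm_apply]

theorem qq_unique {x y : ℝ} (h : (psi y : ℝ) = 4 * Int.fract x - 2) : qq x = y := by
  have h1 : 4 * Int.fract x - 2 ∈ Ioo (-1 : ℝ) 1 := by rw [← h]; exact (psi y).2
  rw [qq, dif_pos h1, OrderIso.symm_apply_eq]
  exact Subtype.ext h.symm

theorem qq_per {x : ℝ} (h : x ∈ Om) : qq x ∈ per Y1 := by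
  have h1 : 4 * Int.fract x + (-2) ∈ Bd Y1 := h.1
  rw [← sub_eq_add_neg, ← qq_spec h, psi_mem_Bd] at h1
  exact h1

theorem qq_diag (g : ℝ ≃o ℝ) {x : ℝ} (h : x ∈ Om) : qq (diag g x) = g (qq x) := by
  apply qq_unique
  rw [(diag_floor_fract g x).2, sm_apply, ← qq_spec h, sqFun_psi]
  ring

theorem Om_inv (g : GG) {x : ℝ} (h : x ∈ Om) : g.1 x ∈ Om := by
  obtain ⟨h1, h2, h3⟩ := h
  have s := dg_spec g ⌊x⌋
  have hx := Int.floor_add_fract x
  have l1 : g.1 (⌊x⌋ + 1 / 4) < g.1 x := g.1.strictMono (by linarith)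
  have l2 : g.1 x < g.1 (⌊x⌋ + 3 / 4) := g.1.strictMono (by linarith)
  rw [s.2.1] at l1
  rw [s.2.2] at l2
  have hf : ⌊g.1 x⌋ = ⌊x⌋ + dg g := by
    rw [Int.floor_eq_iff]
    push_cast
    constructor <;> linarith
  refine ⟨(g.2.1 x).2 h1, ?_, ?_⟩
  · rw [Int.fract, hf]; push_cast; linarith
  · rw [Int.fract, hf]; push_cast; linarith

theorem exists_Om : ∃ x, x ∈ Om := by
  have hz : (0 : ℝ) ∈ per Y1 := by
    change Int.fract (0 : ℝ) ∈ Y1
    rw [Int.fract_zero, mem_Y1, mul_zero]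
    exact zero_mem_cantorSet
  have hp := (psi 0).2
  have hfr : Int.fract (((psi 0 : ℝ) + 2) / 4) = ((psi 0 : ℝ) + 2) / 4 :=
    Int.fract_eq_self.2 ⟨by linarith [hp.1], by linarith [hp.2]⟩
  refine ⟨((psi 0 : ℝ) + 2) / 4, ?_, ?_, ?_⟩
  · change 4 * Int.fract (((psi 0 : ℝ) + 2) / 4) + (-2) ∈ Bd Y1
    rw [hfr]
    have : 4 * (((psi 0 : ℝ) + 2) / 4) + (-2) = (psi 0 : ℝ) := by ring
    rw [this, psi_mem_Bd]
    exact hz
  · rw [hfr]; linarith [hp.1]
  · rw [hfr]; linarith [hp.2]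

theorem yy_cases {x : ℝ} (h : x ∈ per Y1) : yy x ≤ 1 / 6 ∨ (1 / 3 ≤ yy x ∧ yy x ≤ 1 / 2) ∨
    (1 ≤ yy x ∧ yy x ≤ 7 / 6) ∨ (4 / 3 ≤ yy x ∧ yy x ≤ 3 / 2) := by
  rcases (per_yy x).1 h with h | h
  · have b := Y1_bd h
    rcases Y1_gap h with g | g
    · exact Or.inl g
    · exact Or.inr (Or.inl ⟨g, b.2⟩)
  · have b := Y1_bd h
    rcases Y1_gap h with g | g
    · exact Or.inr (Or.inr (Or.inl ⟨by linarith [b.1], by linarith⟩))
    · exact Or.inr (Or.inr (Or.inr ⟨by linarith, by linarith [b.2]⟩))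

/-- diagonal element of the group -/
noncomputable def diagG (g : ℝ ≃o ℝ) (hg : ∀ x, g x ∈ per Y1 ↔ x ∈ per Y1) : GG :=
  ⟨diag g, diag_mem hg⟩

theorem not_amenable_HH : ¬ IsAmenable HH := by
  obtain ⟨x0, hx0⟩ := exists_Om
  refine not_amenable_of_paradox rho.rangeRestrict rho.rangeRestrict_surjective
    (X := ℝ) (fun g x => g.1 x) (fun g h x => rfl) x0 ?_ (diagG tr tr_per) (diagG gg gg_per)
    {x | yy (qq x) < 1} {x | 1 ≤ yy (qq x)} {x | yy (qq x) ≤ 1 / 6}
    {x | 1 / 3 ≤ yy (qq x) ∧ yy (qq x) ≤ 1 / 2} {x | 1 ≤ yy (qq x) ∧ yy (qq x) ≤ 7 / 6} Om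
    (fun g => Om_inv g hx0) ?_ ?_ ?_ ?_ ?_ ?_ ?_ ?_
  · intro g h hgh
    exact rho_ker (congrArg Subtype.val hgh) hx0.1
  · intro x _
    change yy (qq x) < 1 ∨ 1 ≤ yy (qq x)
    exact lt_or_ge _ _
  · rintro x _ ⟨h1, h2⟩
    change yy (qq x) < 1 at h1
    change 1 ≤ yy (qq x) at h2
    linarith
  · intro x hx
    change yy (qq x) < 1 ↔ yy (qq x) ≤ 1 / 6 ∨ (1 / 3 ≤ yy (qq x) ∧ yy (qq x) ≤ 1 / 2)
    have hc := yy_cases (qq_per hx)
    constructor
    · intro h
      rcases hc with h1 | h1 | h1 | h1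
      · exact Or.inl h1
      · exact Or.inr h1
      · linarith [h1.1]
      · linarith [h1.1]
    · rintro (h | h)
      · linarith
      · linarith [h.2]
  · rintro x _ ⟨h1, h2⟩
    change yy (qq x) ≤ 1 / 6 at h1
    change 1 / 3 ≤ yy (qq x) ∧ yy (qq x) ≤ 1 / 2 at h2
    linarith [h2.1]
  · intro x hx
    change 1 ≤ yy (qq (diag tr x)) ↔ yy (qq x) < 1
    have hb := yy_mem (qq x)
    rw [qq_diag tr hx, yy_tr]
    split_ifs with h
    · exact ⟨fun _ => h, fun _ => by linarith [hb.1]⟩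
    · exact ⟨fun h' => by linarith [hb.2], fun h' => absurd h' h⟩
  · intro x hx
    change (1 ≤ yy (qq (diag tr x)) ∧ yy (qq (diag tr x)) ≤ 7 / 6) ↔ yy (qq x) ≤ 1 / 6
    have hb := yy_mem (qq x)
    rw [qq_diag tr hx, yy_tr]
    split_ifs with h
    · exact ⟨fun h' => by linarith [h'.2], fun h' => ⟨by linarith [hb.1], by linarith⟩⟩
    · exact ⟨fun h' => by linarith [hb.2, h'.1], fun h' => by linarith⟩
  · intro x hx
    change yy (qq (diag gg x)) ≤ 1 / 6 ↔ yy (qq x) < 1
    have hb := yy_mem (qq x)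
    rw [qq_diag gg hx, yy_gg]
    rcases yy_cases (qq_per hx) with h1 | h1 | h1 | h1
    · rw [ff_1 hb.1 (by linarith)]
      exact ⟨fun _ => by linarith, fun _ => by linarith⟩
    · rw [ff_1 hb.1 (by linarith [h1.2])]
      exact ⟨fun _ => by linarith [h1.2], fun _ => by linarith [h1.2]⟩
    · rw [ff_2 h1.1 h1.2]
      exact ⟨fun _ => by linarith [h1.1], fun _ => by linarith [h1.1]⟩
    · rw [ff_3 (by linarith [h1.1]) h1.2]
      exact ⟨fun _ => by linarith [h1.1], fun _ => by linarith [h1.1]⟩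
  · intro x hx
    change (1 / 3 ≤ yy (qq (diag gg x)) ∧ yy (qq (diag gg x)) ≤ 1 / 2) ↔
      (1 ≤ yy (qq x) ∧ yy (qq x) ≤ 7 / 6)
    have hb := yy_mem (qq x)
    rw [qq_diag gg hx, yy_gg]
    rcases yy_cases (qq_per hx) with h1 | h1 | h1 | h1
    · rw [ff_1 hb.1 (by linarith)]
      exact ⟨fun h => by linarith [h.1], fun h => by linarith [h.1]⟩
    · rw [ff_1 hb.1 (by linarith [h1.2])]
      exact ⟨fun h => by linarith [h.1, h1.2], fun h => by linarith [h.1, h1.2]⟩
    · rw [ff_2 h1.1 h1.2]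
      exact ⟨fun _ => h1, fun _ => ⟨by linarith [h1.1], by linarith [h1.2]⟩⟩
    · rw [ff_3 (by linarith [h1.1]) h1.2]
      exact ⟨fun h => by linarith [h.2, h1.1], fun h => by linarith [h.2, h1.1]⟩

/-- The planar set `lineSet CC` is a Cantor set. -/
theorem cantor_lineSet : Nonempty (lineSet CC ≃ₜ (ℕ → Bool)) := by
  obtain ⟨e⟩ := Good.homeo CC_good
  let f : lineSet CC ≃ₜ CC :=
    { toFun := fun z => ⟨z.1.re, z.2.2⟩
      invFun := fun x => ⟨((x : ℝ) : ℂ), Complex.ofReal_im _, by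
        rw [Complex.ofReal_re]; exact x.2⟩
      left_inv := fun z => Subtype.ext (Complex.ext (Complex.ofReal_re _)
        ((Complex.ofReal_im _).trans z.2.1.symm))
      right_inv := fun x => Subtype.ext (Complex.ofReal_re _)
      continuous_toFun := by fun_prop
      continuous_invFun := by fun_prop }
  exact ⟨(f.trans e).trans cantorSetHomeomorphNatToBool⟩

end Run7.h521.PM
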