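import Pool.Agent.H812R3.CantorChar

/-!
Linear Cantor sets: the ternary set, and the operation `B` that places a periodic copy of a set
inside `(-1,1)` and adds the two end points.
-/

set_option autoImplicit false

open Set Filter Topology

namespace Run7.h521.PM

open Pool.Agent.H812R3.CantorChar

theorem cantor_cases {z : ℝ} : z ∈ cantorSet ↔ (∃ w ∈ cantorSet, z = w / 3) ∨
    ∃ w ∈ cantorSet, z = (2 + w) / 3 := by
  conv_lhs => rw [cantorSet_eq_union_halves]
  simp only [mem_union, mem_image, eq_comm]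

theorem cantor_mem01 {z : ℝ} (h : z ∈ cantorSet) : 0 ≤ z ∧ z ≤ 1 :=
  cantorSet_subset_unitInterval h

theorem cantor_left {z : ℝ} (h : z < 2 / 3) : z ∈ cantorSet ↔ 3 * z ∈ cantorSet := by
  constructor
  · intro hz
    rcases cantor_cases.1 hz with ⟨w, hw, rfl⟩ | ⟨w, hw, rfl⟩
    · convert hw using 1; ring
    · have := (cantor_mem01 hw).1
      linarith
  · intro hz
    exact cantor_cases.2 (Or.inl ⟨3 * z, hz, by ring⟩)

theorem cantor_right {z : ℝ} (h : 1 / 3 < z) : z ∈ cantorSet ↔ 3 * z - 2 ∈ cantorSet := by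
  constructor
  · intro hz
    rcases cantor_cases.1 hz with ⟨w, hw, rfl⟩ | ⟨w, hw, rfl⟩
    · have := (cantor_mem01 hw).2
      linarith
    · convert hw using 1; ring
  · intro hz
    exact cantor_cases.2 (Or.inr ⟨3 * z - 2, hz, by ring⟩)

theorem cantor_gap {z : ℝ} (h1 : 1 / 3 < z) (h2 : z < 2 / 3) : z ∉ cantorSet := by
  intro hz
  have := (cantor_mem01 ((cantor_left h2).1 hz)).2
  linarith

theorem one_mem_cantor : (1 : ℝ) ∈ cantorSet := by
  have h : ∀ n : ℕ, (1 : ℝ) ∈ preCantorSet n := by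
    intro n
    induction n with
    | zero => simp
    | succ n ih =>
      rw [preCantorSet_succ]
      exact Or.inr ⟨1, ih, by norm_num⟩
  exact mem_iInter.2 h

theorem good_cantor : Good cantorSet := by
  refine ⟨isCompact_cantorSet, ⟨0, zero_mem_cantorSet⟩, ?_, ?_⟩
  · have key : ∀ n : ℕ, ∀ z ∈ cantorSet, ∃ y ∈ cantorSet, y ≠ z ∧ |y - z| ≤ (1 / 3 : ℝ) ^ n := by
      intro n
      induction n with
      | zero =>
        intro z hz
        have h01 := cantor_mem01 hz
        by_cases h : z = 0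
        · refine ⟨1, one_mem_cantor, by rw [h]; norm_num, ?_⟩
          rw [h]; norm_num
        · refine ⟨0, zero_mem_cantorSet, Ne.symm h, ?_⟩
          rw [zero_sub, abs_neg, abs_of_nonneg h01.1]
          simpa using h01.2
      | succ n ih =>
        intro z hz
        rcases cantor_cases.1 hz with ⟨w, hw, rfl⟩ | ⟨w, hw, rfl⟩
        · obtain ⟨y, hy, hne, hd⟩ := ih w hw
          refine ⟨y / 3, cantor_cases.2 (Or.inl ⟨y, hy, rfl⟩), fun h => hne (by linarith), ?_⟩
          have : y / 3 - w / 3 = (1 / 3) * (y - w) := by ring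
          rw [this, abs_mul, pow_succ, mul_comm]
          rw [abs_of_pos (by norm_num : (0 : ℝ) < 1 / 3)]
          exact mul_le_mul_of_nonneg_right hd (by norm_num)
        · obtain ⟨y, hy, hne, hd⟩ := ih w hw
          refine ⟨(2 + y) / 3, cantor_cases.2 (Or.inr ⟨y, hy, rfl⟩),
            fun h => hne (by linarith), ?_⟩
          have : (2 + y) / 3 - (2 + w) / 3 = (1 / 3) * (y - w) := by ring
          rw [this, abs_mul, pow_succ, mul_comm]
          rw [abs_of_pos (by norm_num : (0 : ℝ) < 1 / 3)]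
          exact mul_le_mul_of_nonneg_right hd (by norm_num)
    intro z hz ε hε
    obtain ⟨n, hn⟩ := exists_pow_lt_of_lt_one hε (by norm_num : (1 / 3 : ℝ) < 1)
    obtain ⟨y, hy, hne, hd⟩ := key n z hz
    exact ⟨y, hy, hne, hd.trans_lt hn⟩
  · have key : ∀ n : ℕ, ∀ u v : ℝ, u < v → Ioo u v ⊆ cantorSet → (v - u) * 3 ^ n ≤ 1 := by
      intro n
      induction n with
      | zero =>
        intro u v huv h
        by_contra hcon
        push Not at hcon
        rw [pow_zero, mul_one] at hcon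
        rcases le_or_gt u (-((v - u - 1) / 2)) with h1 | h1
        · have h2 : u + min ((v - u) / 2) ((v - u - 1) / 4) ∈ Ioo u v := by
            constructor
            · have : 0 < min ((v - u) / 2) ((v - u - 1) / 4) := lt_min (by linarith) (by linarith)
              linarith
            · have := min_le_left ((v - u) / 2) ((v - u - 1) / 4)
              linarith
          have h3 := (cantor_mem01 (h h2)).1
          have := min_le_right ((v - u) / 2) ((v - u - 1) / 4)
          linarith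
        · have h2 : v - min ((v - u) / 2) ((v - u - 1) / 4) ∈ Ioo u v := by
            constructor
            · have := min_le_left ((v - u) / 2) ((v - u - 1) / 4)
              linarith
            · have : 0 < min ((v - u) / 2) ((v - u - 1) / 4) := lt_min (by linarith) (by linarith)
              linarith
          have h3 := (cantor_mem01 (h h2)).2
          have := min_le_right ((v - u) / 2) ((v - u - 1) / 4)
          linarith
      | succ n ih =>
        intro u v huv h
        have hcase : v ≤ 1 / 3 ∨ 2 / 3 ≤ u := by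
          by_contra hcon
          push Not at hcon
          have h1 : max u (1 / 3) < min v (2 / 3) := by
            rw [lt_min_iff, max_lt_iff, max_lt_iff]
            exact ⟨⟨huv, hcon.1⟩, hcon.2, by norm_num⟩
          obtain ⟨z, hz1, hz2⟩ := exists_between h1
          rw [max_lt_iff] at hz1
          rw [lt_min_iff] at hz2
          exact cantor_gap hz1.2 hz2.2 (h ⟨hz1.1, hz2.1⟩)
        rcases hcase with hc | hc
        · have := ih (3 * u) (3 * v) (by linarith) (by
            rintro z ⟨hz1, hz2⟩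
            have h1 : z / 3 ∈ cantorSet := h ⟨by linarith, by linarith⟩
            have := (cantor_left (by linarith)).1 h1
            convert this using 1; ring)
          rw [pow_succ]
          nlinarith
        · have := ih (3 * u - 2) (3 * v - 2) (by linarith) (by
            rintro z ⟨hz1, hz2⟩
            have h1 : (z + 2) / 3 ∈ cantorSet := h ⟨by linarith, by linarith⟩
            have := (cantor_right (by linarith)).1 h1
            convert this using 1; ring)
          rw [pow_succ]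
          nlinarith
    intro u v huv
    by_contra hcon
    push Not at hcon
    obtain ⟨n, hn⟩ := pow_unbounded_of_one_lt (1 / (v - u)) (by norm_num : (1 : ℝ) < 3)
    have h1 := key n u v huv (fun z hz => hcon z hz.1 hz.2)
    rw [div_lt_iff₀ (by linarith)] at hn
    linarith

/-- affine preimages of good sets are good -/
theorem Good.affine {Y : Set ℝ} (hY : Good Y) {a : ℝ} (ha : 0 < a) (b : ℝ) :
    Good {x | a * x + b ∈ Y} := by
  obtain ⟨h1, ⟨y0, hy0⟩, h3, h4⟩ := hY
  have himg : {x | a * x + b ∈ Y} = (fun y => (y - b) / a) '' Y := by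
    ext x
    simp only [Set.mem_ofPred_eq, mem_image]
    constructor
    · intro h
      exact ⟨_, h, by field_simp; ring⟩
    · rintro ⟨y, hy, rfl⟩
      convert hy using 1
      field_simp
      ring
  refine ⟨?_, ⟨(y0 - b) / a, ?_⟩, ?_, ?_⟩
  · rw [himg]
    exact h1.image (by fun_prop)
  · rw [himg]
    exact mem_image_of_mem _ hy0
  · intro z hz ε hε
    obtain ⟨y, hy, hne, hd⟩ := h3 _ hz (a * ε) (by positivity)
    have e : a * ((y - b) / a) + b = y := by field_simp; ring
    refine ⟨(y - b) / a, by rw [Set.mem_ofPred_eq, e]; exact hy, fun h => hne (by rw [← h, e]), ?_⟩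
    have e2 : (y - b) / a - z = (y - (a * z + b)) / a := by field_simp; ring
    rw [e2, abs_div, abs_of_pos ha, div_lt_iff₀ ha]
    linarith
  · intro u v huv
    obtain ⟨z, hz1, hz2, hz3⟩ := h4 (a * u + b) (a * v + b) (by nlinarith)
    have e : a * ((z - b) / a) + b = z := by field_simp; ring
    refine ⟨(z - b) / a, ?_, ?_, by rw [Set.mem_ofPred_eq, e]; exact hz3⟩
    · rw [lt_div_iff₀ ha]; linarith
    · rw [div_lt_iff₀ ha]; linarith

/-- the periodic set with fundamental piece `Y` -/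
def per (Y : Set ℝ) : Set ℝ := {x | Int.fract x ∈ Y}

/-- order isomorphism of the line with `(-1,1)` -/
noncomputable def psi : ℝ ≃o Ioo (-1 : ℝ) 1 := orderIsoIooNegOneOne ℝ

/-- a periodic copy of `Y` squeezed into `(-1,1)`, with the end points added -/
def Bd (Y : Set ℝ) : Set ℝ :=
  {x | x = -1 ∨ x = 1 ∨ ∃ h : x ∈ Ioo (-1 : ℝ) 1, psi.symm ⟨x, h⟩ ∈ per Y}

theorem psi_mem_Bd {Y : Set ℝ} {x : ℝ} : (psi x : ℝ) ∈ Bd Y ↔ x ∈ per Y := by
  have h := (psi x).2
  constructor
  · rintro (h1 | h1 | ⟨h2, h3⟩)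
    · exact absurd h1 (ne_of_gt h.1)
    · exact absurd h1 (ne_of_lt h.2)
    · have : (⟨(psi x : ℝ), h2⟩ : Ioo (-1 : ℝ) 1) = psi x := rfl
      rw [this, psi.symm_apply_apply] at h3
      exact h3
  · intro h1
    refine Or.inr (Or.inr ⟨h, ?_⟩)
    have : (⟨(psi x : ℝ), h⟩ : Ioo (-1 : ℝ) 1) = psi x := rfl
    rw [this, psi.symm_apply_apply]
    exact h1

theorem Bd_subset {Y : Set ℝ} {x : ℝ} (h : x ∈ Bd Y) : -1 ≤ x ∧ x ≤ 1 := by
  rcases h with rfl | rfl | ⟨h, -⟩
  · norm_num
  · norm_num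
  · exact ⟨h.1.le, h.2.le⟩

open scoped Pointwise in
theorem per_eq_add {Y : Set ℝ} (hY : Y ⊆ Ico 0 1) :
    per Y = range (Int.cast : ℤ → ℝ) + Y := by
  ext x
  rw [Set.mem_add]
  constructor
  · intro h
    exact ⟨_, ⟨⌊x⌋, rfl⟩, _, h, Int.floor_add_fract x⟩
  · rintro ⟨_, ⟨k, rfl⟩, y, hy, rfl⟩
    change Int.fract ((k : ℝ) + y) ∈ Y
    rw [Int.fract_intCast_add, Int.fract_eq_self.2 (hY hy)]
    exact hy

theorem psi_cont : Continuous fun x : ℝ => (psi x : ℝ) :=
  continuous_subtype_val.comp psi.continuous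

theorem Good.bd {Y : Set ℝ} (hY : Good Y) (hsub : Y ⊆ Ico 0 1) : Good (Bd Y) := by
  obtain ⟨h1, ⟨y0, hy0⟩, h3, h4⟩ := hY
  have hcl : IsClosed (per Y) := by
    rw [per_eq_add hsub]
    exact Int.isClosedEmbedding_coe_real.isClosed_range.add_right_of_isCompact h1
  refine ⟨?_, ⟨-1, Or.inl rfl⟩, ?_, ?_⟩
  · refine isCompact_Icc.of_isClosed_subset ?_ (fun x hx => (⟨(Bd_subset hx).1, (Bd_subset hx).2⟩ :
      x ∈ Icc (-1 : ℝ) 1))
    rw [← isOpen_compl_iff, isOpen_iff_mem_nhds]
    intro x hx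
    have hx1 : x ≠ -1 := fun h => hx (Or.inl h)
    have hx2 : x ≠ 1 := fun h => hx (Or.inr (Or.inl h))
    by_cases hx3 : x ∈ Ioo (-1 : ℝ) 1
    · have hopen : IsOpen ((fun y : Ioo (-1 : ℝ) 1 => (y : ℝ)) '' (psi.symm ⁻¹' (per Y)ᶜ)) :=
        isOpen_Ioo.isOpenMap_subtype_val _ (hcl.isOpen_compl.preimage psi.symm.continuous)
      refine mem_of_superset (hopen.mem_nhds ⟨⟨x, hx3⟩, fun h => hx (Or.inr (Or.inr ⟨hx3, h⟩)), rfl⟩) ?_
      rintro _ ⟨y, hy, rfl⟩ hmem
      rcases hmem with h | h | ⟨h, h'⟩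
      · exact absurd h (ne_of_gt y.2.1)
      · exact absurd h (ne_of_lt y.2.2)
      · exact hy h'
    · have : x ∈ (Icc (-1 : ℝ) 1)ᶜ := by
        intro h
        exact hx3 ⟨lt_of_le_of_ne h.1 (Ne.symm hx1), lt_of_le_of_ne h.2 hx2⟩
      exact mem_of_superset (isClosed_Icc.isOpen_compl.mem_nhds this)
        (fun y hy h => hy ⟨(Bd_subset h).1, (Bd_subset h).2⟩)
  · have hk : ∀ k : ℤ, (psi ((k : ℝ) + y0) : ℝ) ∈ Bd Y := by
      intro k
      rw [psi_mem_Bd]
      change Int.fract ((k : ℝ) + y0) ∈ Y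
      rw [Int.fract_intCast_add, Int.fract_eq_self.2 (hsub hy0)]
      exact hy0
    have hy01 := hsub hy0
    intro z hz ε hε
    rcases hz with rfl | rfl | ⟨hz, hz'⟩
    · -- near `-1`
      have hw : min (-1 + ε / 2) 0 ∈ Ioo (-1 : ℝ) 1 :=
        ⟨lt_min (by linarith) (by norm_num), (min_le_right _ _).trans_lt (by norm_num)⟩
      set w := psi.symm ⟨_, hw⟩ with hwdef
      refine ⟨psi ((⌊w⌋ - 1 : ℤ) + y0), hk _, ne_of_gt (psi _).2.1, ?_⟩
      have hlt : (((⌊w⌋ - 1 : ℤ) : ℝ) + y0) ≤ w := by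
        push_cast
        have := Int.floor_le w
        linarith [hy01.2]
      have h5 : psi (((⌊w⌋ - 1 : ℤ) : ℝ) + y0) ≤ psi w := psi.monotone hlt
      rw [hwdef, psi.apply_symm_apply, ← hwdef] at h5
      have h6 : (psi (((⌊w⌋ - 1 : ℤ) : ℝ) + y0) : ℝ) ≤ min (-1 + ε / 2) 0 := h5
      have h7 := (psi (((⌊w⌋ - 1 : ℤ) : ℝ) + y0)).2.1
      rw [abs_lt]
      have := min_le_left (-1 + ε / 2) (0 : ℝ)
      constructor <;> linarith
    · have hw : max (1 - ε / 2) 0 ∈ Ioo (-1 : ℝ) 1 :=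
        ⟨lt_of_lt_of_le (by norm_num) (le_max_right _ _), max_lt (by linarith) (by norm_num)⟩
      set w := psi.symm ⟨_, hw⟩ with hwdef
      refine ⟨psi ((⌊w⌋ + 1 : ℤ) + y0), hk _, ne_of_lt (psi _).2.2, ?_⟩
      have hlt : w ≤ (((⌊w⌋ + 1 : ℤ) : ℝ) + y0) := by
        push_cast
        have := (Int.lt_floor_add_one w).le
        linarith [hy01.1]
      have h5 : psi w ≤ psi (((⌊w⌋ + 1 : ℤ) : ℝ) + y0) := psi.monotone hlt
      rw [hwdef, psi.apply_symm_apply, ← hwdef] at h5
      have h6 : max (1 - ε / 2) 0 ≤ (psi (((⌊w⌋ + 1 : ℤ) : ℝ) + y0) : ℝ) := h5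
      have h7 := (psi (((⌊w⌋ + 1 : ℤ) : ℝ) + y0)).2.2
      rw [abs_lt]
      have := le_max_left (1 - ε / 2) (0 : ℝ)
      constructor <;> linarith
    · set w := psi.symm ⟨z, hz⟩ with hwdef
      have hzw : z = (psi w : ℝ) := by rw [hwdef, psi.apply_symm_apply]
      have hc := psi_cont.continuousAt (x := w)
      rw [Metric.continuousAt_iff] at hc
      obtain ⟨δ, hδ, hcδ⟩ := hc ε hε
      obtain ⟨y, hy, hne, hd⟩ := h3 _ hz' δ hδ
      have hwf : (⌊w⌋ : ℝ) + Int.fract w = w := Int.floor_add_fract w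
      have hne2 : (⌊w⌋ : ℝ) + y ≠ w := fun h => hne (by linarith)
      refine ⟨psi ((⌊w⌋ : ℝ) + y), ?_, ?_, ?_⟩
      · rw [psi_mem_Bd]
        change Int.fract ((⌊w⌋ : ℝ) + y) ∈ Y
        rw [Int.fract_intCast_add, Int.fract_eq_self.2 (hsub hy)]
        exact hy
      · intro h
        rw [hzw] at h
        exact hne2 (psi.injective (Subtype.ext h))
      · have := hcδ (x := (⌊w⌋ : ℝ) + y) (by
          rw [Real.dist_eq]
          have : (⌊w⌋ : ℝ) + y - w = y - Int.fract w := by linarith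
          rw [this]
          exact hd)
        rw [Real.dist_eq] at this
        rw [hzw]
        exact this
  · intro u v huv
    by_cases hu : u < -1
    · obtain ⟨z, hz1, hz2⟩ := exists_between (lt_min huv hu)
      rw [lt_min_iff] at hz2
      exact ⟨z, hz1, hz2.1, fun h => by linarith [(Bd_subset h).1]⟩
    by_cases hv : 1 < v
    · obtain ⟨z, hz1, hz2⟩ := exists_between (max_lt huv hv)
      rw [max_lt_iff] at hz1
      exact ⟨z, hz1.1, hz2, fun h => by linarith [(Bd_subset h).2]⟩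
    push Not at hu hv
    obtain ⟨u', hu1, hu2⟩ := exists_between huv
    obtain ⟨v', hv1, hv2⟩ := exists_between hu2
    have hu' : u' ∈ Ioo (-1 : ℝ) 1 := ⟨by linarith, by linarith⟩
    have hv' : v' ∈ Ioo (-1 : ℝ) 1 := ⟨by linarith, by linarith⟩
    set a := psi.symm ⟨u', hu'⟩ with ha
    set b := psi.symm ⟨v', hv'⟩ with hb
    have hab : a < b := psi.symm.strictMono (show (⟨u', hu'⟩ : Ioo (-1 : ℝ) 1) < ⟨v', hv'⟩ from hv1)
    -- a point of `(a, b)` not in `per Y`
    have hfl : (⌊a⌋ : ℝ) ≤ a ∧ a < ⌊a⌋ + 1 := ⟨Int.floor_le a, Int.lt_floor_add_one a⟩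
    have hm : a < min b (⌊a⌋ + 1) := lt_min hab hfl.2
    obtain ⟨z, hz1, hz2, hz3⟩ := h4 (a - ⌊a⌋) (min b (⌊a⌋ + 1) - ⌊a⌋) (by linarith)
    have hzb : z + ⌊a⌋ < min b (⌊a⌋ + 1) := by linarith
    rw [lt_min_iff] at hzb
    have hz01 : z ∈ Ico (0 : ℝ) 1 := ⟨by linarith, by linarith⟩
    refine ⟨psi ((⌊a⌋ : ℝ) + z), ?_, ?_, ?_⟩
    · have h5 : psi a < psi ((⌊a⌋ : ℝ) + z) := psi.strictMono (by linarith)
      rw [ha, psi.apply_symm_apply, ← ha] at h5
      have : u' < (psi ((⌊a⌋ : ℝ) + z) : ℝ) := h5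
      linarith
    · have h5 : psi ((⌊a⌋ : ℝ) + z) < psi b := psi.strictMono (by linarith)
      rw [hb, psi.apply_symm_apply] at h5
      have : (psi ((⌊a⌋ : ℝ) + z) : ℝ) < v' := h5
      linarith
    · rw [psi_mem_Bd]
      intro h
      change Int.fract ((⌊a⌋ : ℝ) + z) ∈ Y at h
      rw [Int.fract_intCast_add, Int.fract_eq_self.2 hz01] at h
      exact hz3 h

end Run7.h521.PM
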