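import Pool.Agent.Run7.h521.PM.MapGroup

/-!
Two general facts: vanishing of quasimorphisms from commutators with one element, and a
criterion for non-amenability.
-/

set_option autoImplicit false

open Set

namespace Run7.h521.PM

variable {G H : Type} [Group G] [Group H]

theorem zero_of_bounded_mul {x C : ℝ} (h : ∀ n : ℕ, |(n : ℝ) * x| ≤ C) : x = 0 := by
  by_contra hne
  have hpos : 0 < |x| := abs_pos.2 hne
  obtain ⟨n, hn⟩ := exists_nat_gt (C / |x|)
  have h1 := h n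
  rw [abs_mul, Nat.abs_cast] at h1
  rw [div_lt_iff₀ hpos] at hn
  linarith

theorem qm_conj {φ : G → ℝ} (hφ : φ ∈ QM G) (g h : G) : φ (h * g * h⁻¹) = φ g := by
  obtain ⟨⟨D, hD⟩, hh⟩ := hφ
  have hinv : φ h⁻¹ = -φ h := by
    have := hh h (-1)
    simpa using this
  have key : ∀ x : G, |φ (h * x * h⁻¹) - φ x| ≤ 2 * D := by
    intro x
    have h1 := hD (h * x) h⁻¹
    have h2 := hD h x
    rw [hinv] at h1
    have : φ (h * x * h⁻¹) - φ x =
      (φ (h * x * h⁻¹) - φ (h * x) - -φ h) + (φ (h * x) - φ h - φ x) := by ring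
    rw [this]
    exact (abs_add_le _ _).trans (by linarith)
  have := zero_of_bounded_mul (x := φ (h * g * h⁻¹) - φ g) (C := 2 * D) (fun n => by
    have h1 := key (g ^ n)
    have h2 : h * g ^ n * h⁻¹ = (h * g * h⁻¹) ^ n := (conj_pow).symm
    rw [h2] at h1
    have h3 := hh (h * g * h⁻¹) n
    have h4 := hh g n
    rw [zpow_natCast] at h3 h4
    rw [h3, h4] at h1
    push_cast at h1
    rw [mul_sub]
    exact h1)
  linarith

/-- If every element of degree zero is a commutator with `t`, every homogeneous quasimorphism is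
a homomorphism. -/
theorem qm_is_hom (deg : G → ℤ) (hdeg : ∀ g h, deg (g * h) = deg g + deg h) (t : G)
    (ht : deg t = 1) (hcomm : ∀ f, deg f = 0 → ∃ h, f = h * t * h⁻¹ * t⁻¹)
    {φ : G → ℝ} (hφ : φ ∈ QM G) (g h : G) : φ (g * h) = φ g + φ h := by
  have hφ' := hφ
  obtain ⟨⟨D, hD⟩, hh⟩ := hφ
  have hdeg1 : deg 1 = 0 := by
    have := hdeg 1 1
    rw [mul_one] at this
    omega
  have hdegp : ∀ (g : G) (n : ℕ), deg (g ^ n) = n * deg g := by
    intro g n
    induction n with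
    | zero => simp [hdeg1]
    | succ n ih => rw [pow_succ, hdeg, ih]; push_cast; ring
  have hdegi : ∀ g : G, deg g⁻¹ = -deg g := by
    intro g
    have := hdeg g g⁻¹
    rw [mul_inv_cancel, hdeg1] at this
    omega
  have hdegz : ∀ (g : G) (n : ℤ), deg (g ^ n) = n * deg g := by
    intro g n
    obtain ⟨m, rfl | rfl⟩ := n.eq_nat_or_neg
    · rw [zpow_natCast, hdegp]
    · rw [zpow_neg, zpow_natCast, hdegi, hdegp]; ring
  have htinv : φ t⁻¹ = -φ t := by
    have := hh t (-1)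
    simpa using this
  have hb : ∀ f, deg f = 0 → |φ f| ≤ D := by
    intro f hf
    obtain ⟨k, rfl⟩ := hcomm f hf
    have h1 := hD (k * t * k⁻¹) t⁻¹
    rw [qm_conj hφ' t k, htinv] at h1
    convert h1 using 2
    ring
  have hz : ∀ f, deg f = 0 → φ f = 0 := by
    intro f hf
    refine zero_of_bounded_mul (C := D) (fun n => ?_)
    have h1 := hb (f ^ n) (by rw [hdegp, hf, mul_zero])
    have h2 := hh f n
    rw [zpow_natCast] at h2
    rw [h2] at h1
    push_cast at h1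
    exact h1
  have hlin : ∀ g : G, φ g = deg g * φ t := by
    intro g
    have hbd : ∀ g : G, |φ g - deg g * φ t| ≤ D := by
      intro g
      have h0 : deg (g * t ^ (-deg g)) = 0 := by
        rw [hdeg, hdegz, ht]; ring
      have h1 := hD (g * t ^ (-deg g)) (t ^ (deg g))
      have e : g * t ^ (-deg g) * t ^ (deg g) = g := by
        rw [zpow_neg, inv_mul_cancel_right]
      rw [e, hz _ h0, hh t (deg g)] at h1
      convert h1 using 2
      ring
    have := zero_of_bounded_mul (x := φ g - deg g * φ t) (C := D) (fun n => by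
      have h1 := hbd (g ^ n)
      have h2 := hh g n
      rw [zpow_natCast] at h2
      rw [h2, hdegp] at h1
      push_cast at h1
      convert h1 using 2
      ring)
    linarith
  rw [hlin (g * h), hlin g, hlin h, hdeg]
  push_cast
  ring

/-- The same for quotients: `Q̃` vanishes. -/
theorem qtilde_subsingleton (π : G →* H) (hπ : Function.Surjective π)
    (deg : G → ℤ) (hdeg : ∀ g h, deg (g * h) = deg g + deg h) (t : G)
    (ht : deg t = 1) (hcomm : ∀ f, deg f = 0 → ∃ h, f = h * t * h⁻¹ * t⁻¹) :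
    Subsingleton (QTilde H) := by
  refine (Submodule.Quotient.subsingleton_iff (p := (HomR H).comap (QM H).subtype)).2 ?_
  rw [eq_top_iff]
  rintro ⟨φ, hφ⟩ -
  change φ ∈ HomR H
  intro x y
  obtain ⟨g, rfl⟩ := hπ x
  obtain ⟨h, rfl⟩ := hπ y
  have hφπ : (fun g => φ (π g)) ∈ QM G := by
    obtain ⟨⟨D, hD⟩, hh⟩ := hφ
    exact ⟨⟨D, fun a b => by simpa only [map_mul] using hD (π a) (π b)⟩,
      fun a n => by simpa only [map_zpow] using hh (π a) n⟩
  have := qm_is_hom deg hdeg t ht hcomm hφπ g h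
  rw [map_mul] at this
  exact this

theorem not_amenable_of_paradox (π : G →* H) (hπ : Function.Surjective π) {X : Type}
    (act : G → X → X) (hact : ∀ g h x, act (g * h) x = act g (act h x))
    (x0 : X) (hker : ∀ g h, π g = π h → act g x0 = act h x0) (a b : G)
    (U0 U1 V V' R Ω : Set X) (hΩ : ∀ g, act g x0 ∈ Ω)
    (h1 : ∀ x ∈ Ω, x ∈ U0 ∨ x ∈ U1) (h1d : ∀ x ∈ Ω, ¬ (x ∈ U0 ∧ x ∈ U1))
    (hV : ∀ x ∈ Ω, x ∈ U0 ↔ x ∈ V ∨ x ∈ V') (hVd : ∀ x ∈ Ω, ¬ (x ∈ V ∧ x ∈ V'))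
    (ha1 : ∀ x ∈ Ω, act a x ∈ U1 ↔ x ∈ U0) (ha2 : ∀ x ∈ Ω, act a x ∈ R ↔ x ∈ V)
    (hb1 : ∀ x ∈ Ω, act b x ∈ V ↔ x ∈ U0) (hb2 : ∀ x ∈ Ω, act b x ∈ V' ↔ x ∈ R) :
    ¬ IsAmenable H := by
  rintro ⟨m, hm0, hm1, hmadd, hminv⟩
  let S : Set X → Set H := fun A => {h | ∃ g, π g = h ∧ act g x0 ∈ A}
  have hS : ∀ (A : Set X) (g : G), π g ∈ S A ↔ act g x0 ∈ A := by
    intro A g
    constructor
    · rintro ⟨g', hg', h⟩
      rwa [← hker g' g hg']
    · intro h
      exact ⟨g, rfl, h⟩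
  have inv : ∀ (c : G) (A B : Set X), (∀ x ∈ Ω, act c x ∈ A ↔ x ∈ B) → m (S A) = m (S B) := by
    intro c A B hAB
    rw [← hminv (π c) (S B)]
    congr 1
    ext h
    constructor
    · intro hh
      obtain ⟨g, rfl⟩ := hπ h
      refine ⟨π (c⁻¹ * g), (hS _ _).2 ?_, by simp⟩
      rw [← hAB _ (hΩ _), ← hact, mul_inv_cancel_left]
      exact (hS _ _).1 hh
    · rintro ⟨h', hh', rfl⟩
      obtain ⟨g, rfl⟩ := hπ h'
      change π c * π g ∈ S A
      rw [← map_mul, hS, hact, hAB _ (hΩ _)]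
      exact (hS _ _).1 hh'
  have add : ∀ A B C : Set X, (∀ x ∈ Ω, x ∈ A ↔ x ∈ B ∨ x ∈ C) →
      (∀ x ∈ Ω, ¬ (x ∈ B ∧ x ∈ C)) → m (S A) = m (S B) + m (S C) := by
    intro A B C hA hd
    rw [← hmadd]
    · congr 1
      ext h
      obtain ⟨g, rfl⟩ := hπ h
      rw [mem_union, hS, hS, hS, hA _ (hΩ _)]
    · rw [Set.disjoint_left]
      intro h hB hC
      obtain ⟨g, rfl⟩ := hπ h
      exact hd _ (hΩ g) ⟨(hS _ _).1 hB, (hS _ _).1 hC⟩
  have huniv : m (S univ) = 1 := by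
    rw [← hm1]
    congr 1
    ext h
    obtain ⟨g, rfl⟩ := hπ h
    simp only [mem_univ, iff_true]
    exact (hS _ _).2 (mem_univ _)
  have e1 := add univ U0 U1 (fun x hx => ⟨fun _ => h1 x hx, fun _ => mem_univ _⟩) h1d
  have e2 := add U0 V V' hV hVd
  have e3 := inv a U1 U0 ha1
  have e4 := inv a R V ha2
  have e5 := inv b V U0 hb1
  have e6 := inv b V' R hb2
  linarith

end Run7.h521.PM
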