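import Pool.Agent.Run7.h521.PM.Winding

/-!
Mapping class groups of complements of closed planar sets, quasimorphisms, amenability, and the
mapping classes given by order automorphisms of the real line.
-/

set_option autoImplicit false

open Complex Set Filter Topology

namespace Run7.h521.PM

/-- The surface `ℂ \ C`, with the subspace topology. -/
abbrev Surf (C : Set ℂ) : Type := {z : ℂ // z ∉ C}

/-- A homeomorphism `f` of `ℂ \ C` is orientation preserving if it preserves winding numbers of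
null-homotopic closed curves: whenever `γ` is a closed curve, null-homotopic in `ℂ \ C`, that
avoids the point `p` and winds `n` times around `p`, the curve `f ∘ γ` winds `n` times around
`f p`. (So `f` has local degree `+1` at every point.) -/
def OrientationPreserving {C : Set ℂ} (f : Surf C ≃ₜ Surf C) : Prop :=
  ∀ (p : Surf C) (γ : C(Circle, Surf C)), γ.Nullhomotopic → (∀ z, γ z ≠ p) →
    ∀ n : ℤ, Winds (fun z => (γ z : ℂ)) p n → Winds (fun z => (f (γ z) : ℂ)) (f p) n

theorem OrientationPreserving.mul {C : Set ℂ} {f g : Surf C ≃ₜ Surf C}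
    (hf : OrientationPreserving f) (hg : OrientationPreserving g) :
    OrientationPreserving (f * g) := by
  intro p γ hγ hne n hn
  have h1 := hg p γ hγ hne n hn
  have h2 := hf (g p) ((⟨g, g.continuous⟩ : C(Surf C, Surf C)).comp γ)
    (hγ.comp_right _) (fun z h => hne z (g.injective h)) n h1
  exact h2

theorem OrientationPreserving.one {C : Set ℂ} :
    OrientationPreserving (1 : Surf C ≃ₜ Surf C) := by
  intro p γ hγ hne n hn
  exact hn

theorem OrientationPreserving.inv {C : Set ℂ} {f : Surf C ≃ₜ Surf C}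
    (hf : OrientationPreserving f) : OrientationPreserving f⁻¹ := by
  intro p γ hγ hne n hn
  have hne' : ∀ z, (f⁻¹ (γ z)) ≠ f⁻¹ p := fun z h => hne z ((f⁻¹ : Surf C ≃ₜ Surf C).injective h)
  have hc : Continuous fun z => ((f⁻¹ : Surf C ≃ₜ Surf C) (γ z) : ℂ) :=
    continuous_subtype_val.comp ((f⁻¹ : Surf C ≃ₜ Surf C).continuous.comp γ.continuous)
  obtain ⟨m, hm⟩ := Winds.exists (p := (((f⁻¹ : Surf C ≃ₜ Surf C) p : Surf C) : ℂ)) hc
    (fun z h => hne' z (Subtype.ext h))
  have h2 := hf ((f⁻¹ : Surf C ≃ₜ Surf C) p)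
    ((⟨(f⁻¹ : Surf C ≃ₜ Surf C), (f⁻¹ : Surf C ≃ₜ Surf C).continuous⟩ :
      C(Surf C, Surf C)).comp γ) (hγ.comp_right _) hne' m hm
  have h3 : ∀ x : Surf C, f ((f⁻¹ : Surf C ≃ₜ Surf C) x) = x := fun x => f.apply_symm_apply x
  have h4 : Winds (fun z => (γ z : ℂ)) p m := by
    simpa [h3] using h2
  have := hn.unique h4
  rw [this]
  exact hm

/-- `Homeo⁺(ℂ \ C)`. -/
def HomeoPlus (C : Set ℂ) : Subgroup (Surf C ≃ₜ Surf C) where
  carrier := {f | OrientationPreserving f}
  mul_mem' := OrientationPreserving.mul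
  one_mem' := OrientationPreserving.one
  inv_mem' := OrientationPreserving.inv

/-- `f` is isotopic to the identity: there is a level preserving homeomorphism of `[0,1] × X`
which is the identity on level `0` and `f` on level `1`. -/
def IsotopicToId {X : Type} [TopologicalSpace X] (f : X ≃ₜ X) : Prop :=
  ∃ Φ : (unitInterval × X) ≃ₜ (unitInterval × X), (∀ s x, (Φ (s, x)).1 = s) ∧
    (∀ x, Φ (0, x) = (0, x)) ∧ ∀ x, Φ (1, x) = (1, f x)

theorem IsotopicToId.mul {X : Type} [TopologicalSpace X] {f g : X ≃ₜ X}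
    (hf : IsotopicToId f) (hg : IsotopicToId g) : IsotopicToId (f * g) := by
  obtain ⟨Φ, h1, h2, h3⟩ := hf
  obtain ⟨Ψ, k1, k2, k3⟩ := hg
  refine ⟨Φ * Ψ, fun s x => ?_, fun x => ?_, fun x => ?_⟩
  · rw [Homeomorph.mul_apply]
    have : Ψ (s, x) = (s, (Ψ (s, x)).2) := Prod.ext (k1 s x) rfl
    rw [this]
    exact h1 _ _
  · rw [Homeomorph.mul_apply, k2, h2]
  · rw [Homeomorph.mul_apply, k3, h3]
    rfl

theorem IsotopicToId.one {X : Type} [TopologicalSpace X] : IsotopicToId (1 : X ≃ₜ X) :=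
  ⟨1, fun _ _ => rfl, fun _ => rfl, fun _ => rfl⟩

theorem IsotopicToId.inv {X : Type} [TopologicalSpace X] {f : X ≃ₜ X}
    (hf : IsotopicToId f) : IsotopicToId f⁻¹ := by
  obtain ⟨Φ, h1, h2, h3⟩ := hf
  have hs : ∀ y, Φ (Φ.symm y) = y := Φ.apply_symm_apply
  refine ⟨Φ.symm, fun s x => ?_, fun x => ?_, fun x => ?_⟩
  · have h := h1 (Φ.symm (s, x)).1 (Φ.symm (s, x)).2
    rw [Prod.mk.eta, hs] at h
    exact h.symm
  · rw [Homeomorph.symm_apply_eq, h2]
  · rw [Homeomorph.symm_apply_eq, h3]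
    exact Prod.ext rfl (f.apply_symm_apply x).symm

/-- `Homeo₀(X)`, the group of homeomorphisms isotopic to the identity. -/
def HomeoZero (X : Type) [TopologicalSpace X] : Subgroup (X ≃ₜ X) where
  carrier := {f | IsotopicToId f}
  mul_mem' := IsotopicToId.mul
  one_mem' := IsotopicToId.one
  inv_mem' := IsotopicToId.inv

theorem IsotopicToId.conj {X : Type} [TopologicalSpace X] {f : X ≃ₜ X}
    (hf : IsotopicToId f) (g : X ≃ₜ X) : IsotopicToId (g * f * g⁻¹) := by
  obtain ⟨Φ, h1, h2, h3⟩ := hf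
  let G : (unitInterval × X) ≃ₜ (unitInterval × X) := (Homeomorph.refl _).prodCongr g
  refine ⟨G * Φ * G⁻¹, fun s x => ?_, fun x => ?_, fun x => ?_⟩
  · change (Φ (s, g.symm x)).1 = s
    exact h1 _ _
  · change G (Φ (0, g.symm x)) = (0, x)
    rw [h2]
    exact Prod.ext rfl (g.apply_symm_apply x)
  · change G (Φ (1, g.symm x)) = (1, g (f (g.symm x)))
    rw [h3]
    rfl

instance (X : Type) [TopologicalSpace X] : (HomeoZero X).Normal where
  conj_mem := fun _ hf g => IsotopicToId.conj hf g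

/-- The mapping class group `Map(ℂ \ C) = Homeo⁺(ℂ \ C) / Homeo₀(ℂ \ C)`. -/
def MapGroup (C : Set ℂ) : Type :=
  HomeoPlus C ⧸ (HomeoZero (Surf C)).subgroupOf (HomeoPlus C)

noncomputable instance (C : Set ℂ) : Group (MapGroup C) :=
  QuotientGroup.Quotient.group ((HomeoZero (Surf C)).subgroupOf (HomeoPlus C))

/-- `φ` is a homogeneous quasimorphism on the group `H`: the defect is bounded and
`φ (g ^ n) = n φ(g)` for all integers `n`. -/
def IsHomQM {H : Type} [Group H] (φ : H → ℝ) : Prop :=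
  (∃ D : ℝ, ∀ g h, |φ (g * h) - φ g - φ h| ≤ D) ∧ ∀ (g : H) (n : ℤ), φ (g ^ n) = n * φ g

theorem IsHomQM.add {H : Type} [Group H] {φ ψ : H → ℝ} (h1 : IsHomQM φ) (h2 : IsHomQM ψ) :
    IsHomQM (φ + ψ) := by
  obtain ⟨⟨D, hD⟩, hφ⟩ := h1
  obtain ⟨⟨E, hE⟩, hψ⟩ := h2
  refine ⟨⟨D + E, fun g h => ?_⟩, fun g n => ?_⟩
  · have : (φ + ψ) (g * h) - (φ + ψ) g - (φ + ψ) h =
      (φ (g * h) - φ g - φ h) + (ψ (g * h) - ψ g - ψ h) := by
      simp only [Pi.add_apply]; ring
    rw [this]
    exact (abs_add_le _ _).trans (add_le_add (hD _ _) (hE _ _))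
  · simp only [Pi.add_apply, hφ, hψ]; ring

theorem IsHomQM.zero {H : Type} [Group H] : IsHomQM (0 : H → ℝ) :=
  ⟨⟨0, fun g h => by simp⟩, fun g n => by simp⟩

theorem IsHomQM.smul {H : Type} [Group H] (c : ℝ) {φ : H → ℝ} (h1 : IsHomQM φ) :
    IsHomQM (c • φ) := by
  obtain ⟨⟨D, hD⟩, hφ⟩ := h1
  refine ⟨⟨|c| * D, fun g h => ?_⟩, fun g n => ?_⟩
  · have : (c • φ) (g * h) - (c • φ) g - (c • φ) h = c * (φ (g * h) - φ g - φ h) := by
      simp only [Pi.smul_apply, smul_eq_mul]; ring
    rw [this, abs_mul]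
    exact mul_le_mul_of_nonneg_left (hD _ _) (abs_nonneg _)
  · simp only [Pi.smul_apply, smul_eq_mul, hφ]; ring

/-- The space `Q(H)` of homogeneous quasimorphisms on `H`. -/
def QM (H : Type) [Group H] : Submodule ℝ (H → ℝ) where
  carrier := {φ | IsHomQM φ}
  add_mem' := IsHomQM.add
  zero_mem' := IsHomQM.zero
  smul_mem' := fun c _ h => IsHomQM.smul c h

/-- `φ` is a homomorphism from `H` to the additive group of the reals. -/
def IsHomR {H : Type} [Group H] (φ : H → ℝ) : Prop := ∀ g h, φ (g * h) = φ g + φ h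

theorem IsHomR.add {H : Type} [Group H] {φ ψ : H → ℝ} (h1 : IsHomR φ) (h2 : IsHomR ψ) :
    IsHomR (φ + ψ) := by
  intro g h
  simp only [Pi.add_apply, h1 g h, h2 g h]; ring

theorem IsHomR.zero {H : Type} [Group H] : IsHomR (0 : H → ℝ) := fun g h => by simp

theorem IsHomR.smul {H : Type} [Group H] (c : ℝ) {φ : H → ℝ} (h1 : IsHomR φ) :
    IsHomR (c • φ) := by
  intro g h
  simp only [Pi.smul_apply, smul_eq_mul, h1 g h]; ring

/-- The space `Hom(H, ℝ)`. -/
def HomR (H : Type) [Group H] : Submodule ℝ (H → ℝ) where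
  carrier := {φ | IsHomR φ}
  add_mem' := IsHomR.add
  zero_mem' := IsHomR.zero
  smul_mem' := fun c _ h => IsHomR.smul c h

/-- `Q̃(H) = Q(H) / Hom(H, ℝ)`. -/
def QTilde (H : Type) [Group H] : Type := QM H ⧸ (HomR H).comap (QM H).subtype

noncomputable instance (H : Type) [Group H] : AddCommGroup (QTilde H) :=
  Submodule.Quotient.addCommGroup ((HomR H).comap (QM H).subtype)

noncomputable instance (H : Type) [Group H] : Module ℝ (QTilde H) :=
  Submodule.Quotient.module ((HomR H).comap (QM H).subtype)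

/-- Amenability of a discrete group: there is a left invariant finitely additive probability
measure on all its subsets. -/
def IsAmenable (H : Type) [Group H] : Prop :=
  ∃ m : Set H → ℝ, (∀ A, 0 ≤ m A) ∧ m univ = 1 ∧
    (∀ A B, Disjoint A B → m (A ∪ B) = m A + m B) ∧
    ∀ (g : H) (A : Set H), m ((fun x => g * x) '' A) = m A

/-! ### Order automorphisms of the line acting on the plane -/

/-- the homeomorphism `x + iy ↦ g x + iy` of the plane -/
noncomputable def planar (g : ℝ ≃o ℝ) : ℂ ≃ₜ ℂ :=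
  (Complex.equivRealProdCLM.toHomeomorph.trans
    (g.toHomeomorph.prodCongr (Homeomorph.refl ℝ))).trans
      Complex.equivRealProdCLM.toHomeomorph.symm

theorem planar_apply (g : ℝ ≃o ℝ) (z : ℂ) : planar g z = ⟨g z.re, z.im⟩ := rfl

/-- the subset `C × {0}` of the plane -/
def lineSet (C : Set ℝ) : Set ℂ := {z | z.im = 0 ∧ z.re ∈ C}

theorem winds_planar (g : ℝ ≃o ℝ) {γ : Circle → ℂ} (hγ : Continuous γ) {p : ℂ} {n : ℤ}
    (hne : ∀ z, γ z ≠ p) (h : Winds γ p n) :
    Winds (fun z => planar g (γ z)) (planar g p) n := by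
  have hg : Continuous g := g.continuous
  have key := Winds.homotopy
    (G := fun x : unitInterval × Circle =>
      ((((1 - (x.1 : ℝ)) * (γ x.2).re + (x.1 : ℝ) * g (γ x.2).re : ℝ) : ℂ) +
        ((γ x.2).im : ℂ) * Complex.I))
    (by fun_prop)
    (p := fun s : unitInterval =>
      ((((1 - (s : ℝ)) * p.re + (s : ℝ) * g p.re : ℝ) : ℂ) + (p.im : ℂ) * Complex.I))
    (by fun_prop) ?_ (n := n) ?_ 1
  · have e : ∀ w : ℂ, ((((1 - ((1 : unitInterval) : ℝ)) * w.re +
        ((1 : unitInterval) : ℝ) * g w.re : ℝ) : ℂ) + (w.im : ℂ) * Complex.I) = planar g w := by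
      intro w
      rw [planar_apply]
      apply Complex.ext <;> simp
    simpa only [e] using key
  · intro s z heq
    have h1 := congrArg Complex.re heq
    have h2 := congrArg Complex.im heq
    simp only [Complex.add_re, Complex.ofReal_re, Complex.mul_re, Complex.ofReal_im,
      Complex.I_re, Complex.I_im, Complex.add_im, Complex.mul_im, mul_zero, mul_one,
      add_zero, zero_add, sub_self] at h1 h2
    apply hne z
    refine Complex.ext ?_ h2
    have hs0 := s.2.1
    have hs1 := s.2.2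
    by_contra hcon
    rcases lt_or_gt_of_ne hcon with hlt | hlt
    · have h3 := g.strictMono hlt
      rcases hs0.eq_or_lt with h0 | h0
      · rw [← h0] at h1; simp at h1; linarith
      · nlinarith [mul_pos h0 (sub_pos.2 h3), mul_nonneg (sub_nonneg.2 hs1) (sub_nonneg.2 hlt.le)]
    · have h3 := g.strictMono hlt
      rcases hs0.eq_or_lt with h0 | h0
      · rw [← h0] at h1; simp at h1; linarith
      · nlinarith [mul_pos h0 (sub_pos.2 h3), mul_nonneg (sub_nonneg.2 hs1) (sub_nonneg.2 hlt.le)]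
  · have e : ∀ w : ℂ, ((((1 - ((0 : unitInterval) : ℝ)) * w.re +
        ((0 : unitInterval) : ℝ) * g w.re : ℝ) : ℂ) + (w.im : ℂ) * Complex.I) = w := by
      intro w
      apply Complex.ext <;> simp
    simpa only [e] using h

/-- the order automorphisms of `ℝ` preserving `C` -/
def Stab (C : Set ℝ) : Subgroup (ℝ ≃o ℝ) where
  carrier := {g | ∀ x, g x ∈ C ↔ x ∈ C}
  mul_mem' := by
    intro f g hf hg x
    rw [RelIso.mul_apply, hf, hg]
  one_mem' := fun x => Iff.rfl
  inv_mem' := by
    intro g hg x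
    rw [← hg (g⁻¹ x)]
    have : g (g⁻¹ x) = x := g.apply_symm_apply x
    rw [this]

/-- the homeomorphism of `ℂ \ (C × {0})` given by an order automorphism of `ℝ` preserving `C` -/
noncomputable def surfMap {C : Set ℝ} (g : Stab C) :
    Surf (lineSet C) ≃ₜ Surf (lineSet C) :=
  (planar g.1).subtype (by
    intro z
    rw [planar_apply]
    simp only [lineSet, Set.mem_ofPred_eq, g.2 z.re])

theorem surfMap_coe {C : Set ℝ} (g : Stab C) (z : Surf (lineSet C)) :
    (surfMap g z : ℂ) = planar g.1 z := rfl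

theorem surfMap_mem {C : Set ℝ} (g : Stab C) : surfMap g ∈ HomeoPlus (lineSet C) := by
  intro p γ _ hne n hn
  have := winds_planar g.1 (γ := fun z => (γ z : ℂ)) (by fun_prop)
    (fun z h => hne z (Subtype.ext h)) hn
  exact this

/-- the homomorphism to `Homeo⁺` -/
noncomputable def toHomeo (C : Set ℝ) : Stab C →* HomeoPlus (lineSet C) where
  toFun g := ⟨surfMap g, surfMap_mem g⟩
  map_one' := by
    apply Subtype.ext
    apply Homeomorph.ext
    intro z
    apply Subtype.ext
    rfl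
  map_mul' := by
    intro f g
    apply Subtype.ext
    apply Homeomorph.ext
    intro z
    apply Subtype.ext
    rfl

/-- the homomorphism to the mapping class group -/
noncomputable def toMap (C : Set ℝ) : Stab C →* MapGroup (lineSet C) :=
  (QuotientGroup.mk' ((HomeoZero (Surf (lineSet C))).subgroupOf
    (HomeoPlus (lineSet C)))).comp (toHomeo C)

/-- If the mapping class of `g` is trivial, then `g` fixes all points of `C`. -/
theorem toMap_eq_one {C : Set ℝ} (hC : ∀ u v : ℝ, u < v → ∃ z, u < z ∧ z < v ∧ z ∉ C)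
    {g : Stab C} (h : toMap C g = 1) {c : ℝ} (hc : c ∈ C) : g.1 c = c := by
  by_contra hne
  have h1 : (toHomeo C g : HomeoPlus (lineSet C)) ∈
      (HomeoZero (Surf (lineSet C))).subgroupOf (HomeoPlus (lineSet C)) :=
    (QuotientGroup.eq_one_iff _).1 h
  obtain ⟨Φ, hΦ1, hΦ0, hΦ2⟩ := (Subgroup.mem_subgroupOf.1 h1)
  set δ := |g.1 c - c| with hδ
  have hδ0 : 0 < δ := abs_pos.2 (sub_ne_zero.2 hne)
  obtain ⟨a, ha1, ha2, ha⟩ := hC (c - δ) c (by linarith)
  obtain ⟨b, hb1, hb2, hb⟩ := hC c (c + δ) (by linarith)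
  have hab : a < b := ha2.trans hb1
  let m : ℂ := (((a + b) / 2 : ℝ) : ℂ)
  let ρ : ℝ := (b - a) / 2
  have hρ : 0 < ρ := by simp only [ρ]; linarith
  have hmem : ∀ z : Circle, m + ρ * (z : ℂ) ∉ lineSet C := by
    rintro z ⟨hz1, hz2⟩
    have him : (z : ℂ).im = 0 := by
      have : (m + ρ * (z : ℂ)).im = ρ * (z : ℂ).im := by
        simp [m]
      rw [this] at hz1
      rcases mul_eq_zero.1 hz1 with h | h
      · exact absurd h hρ.ne'
      · exact h
    have hre : (m + ρ * (z : ℂ)).re = (a + b) / 2 + ρ * (z : ℂ).re := by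
      simp [m]
    have hn : (z : ℂ).re = 1 ∨ (z : ℂ).re = -1 := by
      have h5 : Complex.normSq (z : ℂ) = 1 := Circle.normSq_coe z
      rw [Complex.normSq_apply, him] at h5
      have h6 : ((z : ℂ).re - 1) * ((z : ℂ).re + 1) = 0 := by linarith
      rcases mul_eq_zero.1 h6 with h | h
      · left; linarith
      · right; linarith
    rw [hre] at hz2
    rcases hn with h | h
    · rw [h] at hz2
      apply hb
      convert hz2 using 1
      simp only [ρ]; ring
    · rw [h] at hz2
      apply ha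
      convert hz2 using 1
      simp only [ρ]; ring
  let γ : C(Circle, Surf (lineSet C)) := ⟨fun z => ⟨m + ρ * (z : ℂ), hmem z⟩, by fun_prop⟩
  have hcin : ‖(c : ℂ) - m‖ < ρ := by
    have : (c : ℂ) - m = ((c - (a + b) / 2 : ℝ) : ℂ) := by simp [m]
    rw [this, Complex.norm_real, Real.norm_eq_abs, abs_lt]
    constructor <;> simp only [ρ] <;> linarith
  have hout : ρ < ‖((g.1 c : ℝ) : ℂ) - m‖ := by
    have : ((g.1 c : ℝ) : ℂ) - m = ((g.1 c - (a + b) / 2 : ℝ) : ℂ) := by simp [m]
    rw [this, Complex.norm_real, Real.norm_eq_abs, lt_abs]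
    rcases abs_choice (g.1 c - c) with h | h
    · left; simp only [ρ]; linarith
    · right; simp only [ρ]; linarith
  have hcl : (c : ℂ) ∈ lineSet C := ⟨Complex.ofReal_im c, by simpa using hc⟩
  have hgl : ((g.1 c : ℝ) : ℂ) ∈ lineSet C :=
    ⟨Complex.ofReal_im _, by simpa using (g.2 c).2 hc⟩
  have w1 : Winds (fun z => planar g.1 (γ z)) (planar g.1 (c : ℂ)) 1 :=
    winds_planar g.1 (γ := fun z => (γ z : ℂ)) (by fun_prop)
      (fun z h => (γ z).2 (h ▸ hcl)) (winds_circle_inside hcin)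
  have hpc : planar g.1 (c : ℂ) = ((g.1 c : ℝ) : ℂ) := by
    rw [planar_apply]
    apply Complex.ext <;> simp
  rw [hpc] at w1
  have w2 := Winds.homotopy
    (G := fun x : unitInterval × Circle => (((Φ (x.1, γ x.2)).2 : Surf (lineSet C)) : ℂ))
    (by fun_prop) (p := fun _ => ((g.1 c : ℝ) : ℂ)) continuous_const
    (fun s z h => (Φ (s, γ z)).2.2 (h ▸ hgl)) (n := 0)
    (by
      simp only [hΦ0]
      exact winds_circle_outside hρ.le hout) 1
  simp only [hΦ2] at w2
  have w3 : Winds (fun z => planar g.1 (γ z)) ((g.1 c : ℝ) : ℂ) 0 := w2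
  have := w1.unique w3
  exact one_ne_zero this

end Run7.h521.PM
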