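import Mathlib

/-!
Winding numbers of closed curves in the plane: existence, uniqueness, homotopy invariance.
-/

set_option autoImplicit false

open Complex Set Filter Topology

namespace Run7.h521.PM

/-- `Winds γ p n`: the closed curve `γ` avoids the point `p` and winds `n` times around it, that is,
`γ(e^{it}) - p = |γ(e^{it}) - p| e^{iθ(t)}` for a continuous `θ` with `θ(2π) = θ(0) + 2πn`. -/
def Winds (γ : Circle → ℂ) (p : ℂ) (n : ℤ) : Prop :=
  ∃ θ : ℝ → ℝ, Continuous θ ∧
    (∀ t : ℝ, γ (Circle.exp t) ≠ p ∧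
      γ (Circle.exp t) - p = ‖γ (Circle.exp t) - p‖ * Complex.exp (θ t * I)) ∧
    θ (2 * Real.pi) = θ 0 + 2 * Real.pi * n

theorem int_const {f : ℝ → ℝ} (hf : Continuous f) (h : ∀ x, ∃ k : ℤ, f x = k) (x y : ℝ) :
    f x = f y := by
  choose g hg using h
  have hgc : Continuous g := by
    rw [Int.isClosedEmbedding_coe_real.isInducing.continuous_iff]
    have : (Int.cast ∘ g : ℝ → ℝ) = f := by
      funext z
      exact (hg z).symm
    rw [this]
    exact hf
  have := PreconnectedSpace.constant (inferInstance : PreconnectedSpace ℝ) hgc (x := x) (y := y)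
  rw [hg x, hg y, this]

/-- continuous polar angle on the plane of parameters -/
theorem exists_angle (F : ℝ × ℝ → ℂ) (hF : Continuous F) (h0 : ∀ x, F x ≠ 0) :
    ∃ θ : ℝ × ℝ → ℝ, Continuous θ ∧ ∀ x, F x = ‖F x‖ * Complex.exp (θ x * I) := by
  have he : Complex.exp (Complex.log (F 0)) = (⟨F, hF⟩ : C(ℝ × ℝ, ℂ)) 0 := Complex.exp_log (h0 0)
  obtain ⟨G, ⟨-, hG⟩, -⟩ := Complex.isCoveringMapOn_exp.existsUnique_continuousMap_lifts
    (⟨F, hF⟩ : C(ℝ × ℝ, ℂ)) (a₀ := (0 : ℝ × ℝ)) he (fun a => by simpa using h0 a)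
  refine ⟨fun x => (G x).im, by fun_prop, fun x => ?_⟩
  have hx : Complex.exp (G x) = F x := congrFun hG x
  rw [← hx, Complex.norm_exp]
  conv_lhs => rw [← Complex.re_add_im (G x), Complex.exp_add]
  rw [Complex.ofReal_exp]

theorem angle_diff {a b : ℝ} {z : ℂ} (hz : z ≠ 0) (ha : z = ‖z‖ * Complex.exp (a * I))
    (hb : z = ‖z‖ * Complex.exp (b * I)) : ∃ k : ℤ, (a - b) / (2 * Real.pi) = k := by
  have h : Complex.exp (a * I) = Complex.exp (b * I) := by
    have h1 : (‖z‖ : ℂ) ≠ 0 := by simpa using hz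
    exact mul_left_cancel₀ h1 (ha.symm.trans hb)
  rw [Complex.exp_eq_exp_iff_exists_int] at h
  obtain ⟨k, hk⟩ := h
  refine ⟨k, ?_⟩
  have h2 := congrArg Complex.im hk
  have h3 : a = b + k * (2 * Real.pi) := by simpa using h2
  rw [h3]
  have := Real.pi_pos
  field_simp
  ring

theorem Winds.unique {γ : Circle → ℂ} {p : ℂ} {n m : ℤ} (h : Winds γ p n) (h' : Winds γ p m) :
    n = m := by
  obtain ⟨θ, hθ, h1, h2⟩ := h
  obtain ⟨η, hη, h3, h4⟩ := h'
  have hc : Continuous fun t => (θ t - η t) / (2 * Real.pi) := by fun_prop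
  have := int_const hc (fun t => angle_diff (sub_ne_zero.2 (h1 t).1) (h1 t).2 (h3 t).2)
    (2 * Real.pi) 0
  have hp := Real.pi_pos
  rw [h2, h4] at this
  field_simp at this
  have h5 : (n : ℝ) = m := by
    have : 2 * Real.pi * ((n : ℝ) - m) = 0 := by linarith
    have h6 : (n : ℝ) - m = 0 := by
      rcases mul_eq_zero.1 this with h | h
      · linarith
      · exact h
    linarith
  exact_mod_cast h5

/-- Homotopy invariance of the winding number, with moving base point. -/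
theorem Winds.homotopy {G : unitInterval × Circle → ℂ} (hG : Continuous G) {p : unitInterval → ℂ} (hp : Continuous p)
    (hne : ∀ s z, G (s, z) ≠ p s) {n : ℤ} (h : Winds (fun z => G (0, z)) (p 0) n) (s : unitInterval) :
    Winds (fun z => G (s, z)) (p s) n := by
  let q : ℝ → unitInterval := Set.projIcc (0 : ℝ) 1 zero_le_one
  have hq : Continuous q := continuous_projIcc
  obtain ⟨Θ, hΘ, hF⟩ := exists_angle (fun x => G (q x.1, Circle.exp x.2) - p (q x.1))
    (by fun_prop) (fun x => sub_ne_zero.2 (hne _ _))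
  have hpi := Real.pi_pos
  have e2 : Circle.exp (2 * Real.pi) = Circle.exp 0 := by simp
  have hcs : Continuous fun s : ℝ => (Θ (s, 2 * Real.pi) - Θ (s, 0)) / (2 * Real.pi) := by
    fun_prop
  have hint : ∀ s : ℝ, ∃ k : ℤ, (Θ (s, 2 * Real.pi) - Θ (s, 0)) / (2 * Real.pi) = k := by
    intro s
    have ha := hF (s, 2 * Real.pi)
    have hb := hF (s, 0)
    simp only [e2] at ha
    exact angle_diff (sub_ne_zero.2 (hne _ _)) ha hb
  have hconst := int_const hcs hint
  have hcast : ∀ k : ℤ, ∀ s : ℝ, (Θ (s, 2 * Real.pi) - Θ (s, 0)) / (2 * Real.pi) = k →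
      Winds (fun z => G (q s, z)) (p (q s)) k := by
    intro k s hk
    refine ⟨fun t => Θ (s, t), by fun_prop, fun t => ⟨hne _ _, hF (s, t)⟩, ?_⟩
    field_simp at hk
    linarith
  obtain ⟨k, hk⟩ := hint 0
  have hq0 : q 0 = 0 := by simp [q]
  have h0 := hcast k 0 hk
  rw [hq0] at h0
  have hkn : k = n := h0.unique h
  subst hkn
  have hs : q (s : ℝ) = s := by
    simp only [q, Set.projIcc_val]
  have := hcast k (s : ℝ) ((hconst _ _).trans hk)
  rwa [hs] at this

theorem Winds.exists {γ : Circle → ℂ} (hγ : Continuous γ) {p : ℂ} (hne : ∀ z, γ z ≠ p) :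
    ∃ n : ℤ, Winds γ p n := by
  obtain ⟨Θ, hΘ, hF⟩ := exists_angle (fun x => γ (Circle.exp x.2) - p)
    (by fun_prop) (fun x => sub_ne_zero.2 (hne _))
  have hpi := Real.pi_pos
  have e2 : Circle.exp (2 * Real.pi) = Circle.exp 0 := by simp
  have ha := hF (0, 2 * Real.pi)
  have hb := hF (0, 0)
  simp only [e2] at ha
  obtain ⟨k, hk⟩ := angle_diff (sub_ne_zero.2 (hne _)) ha hb
  refine ⟨k, fun t => Θ (0, t), by fun_prop, fun t => ⟨hne _, hF (0, t)⟩, ?_⟩
  field_simp at hk
  linarith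

theorem winds_const {c p : ℂ} (h : c ≠ p) : Winds (fun _ => c) p 0 := by
  refine ⟨fun _ => Complex.arg (c - p), continuous_const, fun t => ⟨h, ?_⟩, by simp⟩
  exact (Complex.norm_mul_exp_arg_mul_I (c - p)).symm

theorem winds_circle {c : ℂ} {ρ : ℝ} (hρ : 0 < ρ) : Winds (fun z => c + ρ * (z : ℂ)) c 1 := by
  refine ⟨fun t => t, continuous_id, fun t => ⟨?_, ?_⟩, by simp⟩
  · have h1 : (ρ : ℂ) ≠ 0 := by exact_mod_cast hρ.ne'
    simp [h1]
  · have h2 : ‖(ρ : ℂ) * ((Circle.exp t : Circle) : ℂ)‖ = ρ := by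
      rw [norm_mul, Circle.norm_coe, mul_one, Complex.norm_real, Real.norm_eq_abs, abs_of_pos hρ]
    rw [add_sub_cancel_left, h2, Circle.coe_exp]

theorem winds_circle_inside {c q : ℂ} {ρ : ℝ} (h : ‖q - c‖ < ρ) :
    Winds (fun z => c + ρ * (z : ℂ)) q 1 := by
  have hρ : 0 < ρ := (norm_nonneg _).trans_lt h
  have key := Winds.homotopy (G := fun x : unitInterval × Circle => c + ρ * (x.2 : ℂ))
    (by fun_prop) (p := fun s : unitInterval => c + (s : ℝ) * (q - c)) (by fun_prop) ?_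
    (n := 1) (by simpa using winds_circle (c := c) hρ) 1
  · simpa using key
  · intro s z heq
    have h1 : (ρ : ℂ) * (z : ℂ) = ((s : ℝ) : ℂ) * (q - c) := by
      have := add_left_cancel heq
      exact this
    have h2 := congrArg norm h1
    simp only [norm_mul, Complex.norm_real, Circle.norm_coe, mul_one, Real.norm_eq_abs,
      abs_of_pos hρ, abs_of_nonneg s.2.1] at h2
    have h3 : (s : ℝ) * ‖q - c‖ ≤ 1 * ‖q - c‖ :=
      mul_le_mul_of_nonneg_right s.2.2 (norm_nonneg _)
    linarith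

theorem winds_circle_outside {c q : ℂ} {ρ : ℝ} (hρ : 0 ≤ ρ) (h : ρ < ‖q - c‖) :
    Winds (fun z => c + ρ * (z : ℂ)) q 0 := by
  have hne : c ≠ q := by
    rintro rfl
    simp at h
    linarith
  have key := Winds.homotopy (G := fun x : unitInterval × Circle => c + ((x.1 : ℝ) * ρ : ℝ) * (x.2 : ℂ))
    (by fun_prop) (p := fun _ : unitInterval => q) (by fun_prop) ?_
    (n := 0) (by simpa using winds_const hne) 1
  · simpa using key
  · intro s z heq
    have h1 : (((s : ℝ) * ρ : ℝ) : ℂ) * (z : ℂ) = q - c := by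
      rw [← heq]; ring
    have h2 := congrArg norm h1
    simp only [norm_mul, Complex.norm_real, Circle.norm_coe, mul_one, Real.norm_eq_abs,
      abs_of_nonneg hρ, abs_of_nonneg s.2.1] at h2
    have h3 : (s : ℝ) * ρ ≤ 1 * ρ := mul_le_mul_of_nonneg_right s.2.2 hρ
    linarith

end Run7.h521.PM
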